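import Pool.Agent.helper33.CVX.Spec

set_option autoImplicit false

namespace Pool.Agent.CVX

open MvPolynomial

theorem CSA (hPDV : PDV_stmt) (hEUL : EUL_stmt) (hLEN : LEN_stmt) (hLIN : LIN_stmt) (hCRV : CRV_stmt)
    (hNFR : NFR_stmt) : CSA_stmt := by
  classical
  intro ι _ _ n J _ _ d F hD hAF i i' hii h1 h2 j0
  by_contra hcon
  have hge : 2 ≤ d j0 i := by
    have := hD.pos j0 i
    omega
  haveI : Nonempty ι := ⟨i⟩
  have hJ : Fintype.card J ≤ n i' := by
    have h3 : ∑ _j : J, 1 ≤ ∑ j, d j i' := Finset.sum_le_sum fun j _ => hD.pos j i'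
    rw [Finset.sum_const, Finset.card_univ, smul_eq_mul, mul_one] at h3
    exact h3.trans h2
  have hn : n i + n i' ≤ ∑ k, n k := by
    have h3 : ∑ k ∈ {i, i'}, n k ≤ ∑ k, n k := Finset.sum_le_sum_of_subset (Finset.subset_univ _)
    rwa [Finset.sum_pair hii] at h3
  obtain ⟨p, hp, hz⟩ := hLEN ι n (Fin (n i + 1) ⊕ {j : J // j ≠ j0})
    (fun z => Sum.elim (fun _ => fun l => if l = i then d j0 l - 1 else d j0 l) (fun j => d j.1) z)
    (fun z => Sum.elim (fun a => pderiv ⟨i, a⟩ (F j0)) (fun j => F j.1) z)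
    (by
      rintro (a | j) l
      · simp only [Sum.elim_inl]
        by_cases hl : l = i
        · subst hl
          rw [if_pos rfl]
          omega
        · rw [if_neg hl]
          exact hD.pos j0 l
      · exact hD.pos j.1 l)
    (by
      rintro (a | j)
      · exact hPDV ι n (d j0) (F j0) (hD.hom j0) i a
      · exact hD.hom j.1)
    (by
      rw [Fintype.card_sum, Fintype.card_fin]
      have h3 : Fintype.card {j : J // j ≠ j0} = Fintype.card J - 1 := by
        rw [Fintype.card_subtype_compl, Fintype.card_subtype_eq]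
      have h4 : 0 < Fintype.card J := Fintype.card_pos_iff.2 ⟨j0⟩
      omega)
  have hz1 : ∀ a : Fin (n i + 1), eval p (pderiv ⟨i, a⟩ (F j0)) = 0 := fun a => hz (Sum.inl a)
  have hz2 : ∀ j, eval p (F j) = 0 := by
    intro j
    by_cases hj : j = j0
    · subst hj
      have h5 := hEUL ι n (d j) (F j) (hD.hom j) i p
      rw [Finset.sum_eq_zero (fun a _ => by rw [hz1 a, mul_zero])] at h5
      rcases mul_eq_zero.1 h5.symm with h6 | h6
      · exfalso
        have : d j i = 0 := by exact_mod_cast h6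
        omega
      · exact h6
    · exact hz (Sum.inr ⟨j, hj⟩)
  have hl : ∃ j, (Pi.single j0 1 : J → ℂ) j ≠ 0 := ⟨j0, by simp⟩
  have hsum : ∀ a : Fin (n i + 1), ∑ j, (Pi.single j0 1 : J → ℂ) j * eval p (pderiv ⟨i, a⟩ (F j)) = 0 := by
    intro a
    refine Finset.sum_eq_zero fun j _ => ?_
    by_cases hj : j = j0
    · subst hj
      rw [hz1 a, mul_zero]
    · rw [Pi.single_eq_of_ne hj, zero_mul]
  obtain ⟨V, _, hV2, hV3⟩ := hLIN ι n J d F hD i p hp hz2 _ hl hsum h1
  obtain ⟨γ, hγe, hγf⟩ := hCRV ι n J F i p V hp hV2 hV3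
  exact hNFR ι n J d F i p V γ hγe hγf _ hl hsum (hAF γ)

end Pool.Agent.CVX
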