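import Pool.Agent.helper33.CVX.Spec

set_option autoImplicit false

namespace Pool.Agent.CVX

open MvPolynomial

theorem CSB (hPDV : PDV_stmt) (hRES : RES_stmt) (hRNK : RNK_stmt) (hTWH : TWH_stmt) : CSB_stmt := by
  classical
  intro ι _ _ n J _ _ _ d F hD hAF i hd hJ
  by_contra hcon
  push Not at hcon
  have h1 : ∀ (j : J) (a : Fin (n i + 1)), ∃ F' : MvPolynomial (Vr (fun k : {k : ι // k ≠ i} => n k.1)) ℂ,
      MHom (fun k : {k : ι // k ≠ i} => n k.1) (fun k => d j k.1) F' ∧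
      ∀ x : Vr n → ℂ, eval x (pderiv ⟨i, a⟩ (F j)) =
        eval (fun v : Vr (fun k : {k : ι // k ≠ i} => n k.1) => x ⟨v.1.1, v.2⟩) F' := by
    intro j a
    have h2 := hPDV ι n (d j) (F j) (hD.hom j) i a
    obtain ⟨F', hF1, hF'⟩ := hRES ι n _ _ i h2 (by simp [hd j])
    refine ⟨F', ?_, hF'⟩
    have h3 : (fun k : {k : ι // k ≠ i} => if k.1 = i then d j k.1 - 1 else d j k.1) =
        fun k : {k : ι // k ≠ i} => d j k.1 := by
      funext k
      rw [if_neg k.2]
    have h4 : (fun k : {k : ι // k ≠ i} => (fun l => if l = i then d j l - 1 else d j l) k.1) =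
        fun k : {k : ι // k ≠ i} => d j k.1 := h3
    rw [← h4]
    exact hF1
  choose c hc1 hc2 using h1
  have hsum : ∑ k ∈ Finset.univ.erase i, n k = ∑ k : {k : ι // k ≠ i}, n k.1 := by
    symm
    rw [← Finset.sum_subtype (Finset.univ.erase i) (p := fun k => k ≠ i)]
    intro k
    simp
  obtain ⟨x', hx', l, hl, hz⟩ := hTWH {k : ι // k ≠ i} (fun k => n k.1) J (fun j k => d j k.1)
    (fun j k => hD.pos j k.1) (n i + 1) c hc1 (by rw [← hsum]; omega)
  let x : Vr n → ℂ := fun v => if h : v.1 = i then 1 else x' ⟨⟨v.1, h⟩, v.2⟩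
  have hxP : Pt n x := by
    intro k
    by_cases hk : k = i
    · refine ⟨0, ?_⟩
      simp only [x, dif_pos hk]
      exact one_ne_zero
    · obtain ⟨a, ha⟩ := hx' ⟨k, hk⟩
      refine ⟨a, ?_⟩
      simp only [x, dif_neg hk]
      exact ha
  obtain ⟨a, ha⟩ := hRNK ι n J d F hD hAF i hd hJ x hxP l hl
  apply ha
  rw [← hz a]
  refine Finset.sum_congr rfl fun j _ => ?_
  rw [hc2 j a x]
  have h5 : (fun v : Vr (fun k : {k : ι // k ≠ i} => n k.1) => x ⟨v.1.1, v.2⟩) = x' := by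
    funext v
    simp only [x, dif_neg v.1.2]
  rw [h5]

end Pool.Agent.CVX
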