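import Pool.Agent.helper33.CVX.Spec

set_option autoImplicit false

namespace Pool.Agent.CVX

open MvPolynomial

theorem DE1 : DE1_stmt := by
  classical
  intro ι _ _ n Z q g u hG M hMS hMk N v F hF
  induction N with
  | zero =>
    refine ⟨fun _ _ => 0, fun _ => F, ?_, ?_, ?_⟩
    · intro m w
      exact ⟨fun _ => Submodule.zero_mem _, fun _ => rfl⟩
    · intro w
      have h0 : ∑ j : Fin 0, u (w j) = 0 := by simp
      constructor
      · intro _
        rw [h0, tsub_zero]
        exact hF
      · intro h
        exact absurd (by rw [h0]; exact fun l => Nat.zero_le _) h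
    · simp
  | succ N ih =>
    obtain ⟨k, s, hk, hs, hFe⟩ := ih
    have h1 : ∀ w : Fin N → Fin q, ∃ (k' : MvPolynomial (Vr n) ℂ) (s' : Fin q → MvPolynomial (Vr n) ℂ),
        ((∑ j, u (w j) ≤ v → k' ∈ M (v - ∑ j, u (w j))) ∧ (¬ ∑ j, u (w j) ≤ v → k' = 0)) ∧
        (∀ i, (∑ j, u (w j) + u i ≤ v → MHom n (v - (∑ j, u (w j) + u i)) (s' i)) ∧
          (¬ ∑ j, u (w j) + u i ≤ v → s' i = 0)) ∧ s w = k' + ∑ i, g i * s' i := by
      intro w
      by_cases h : ∑ j, u (w j) ≤ v
      · obtain ⟨k', hk', hkz⟩ := hMk _ _ ((hs w).1 h)
        have h2 : MHom n (v - ∑ j, u (w j)) (s w - k') :=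
          (Sv n (v - ∑ j, u (w j))).sub_mem ((hs w).1 h) (hMS _ hk')
        obtain ⟨s', hs1, hs2, hs3⟩ := hG.gen _ _ h2 hkz
        refine ⟨k', s', ⟨fun _ => hk', fun h' => absurd h h'⟩, ?_, ?_⟩
        · intro i
          constructor
          · intro h3
            have h4 : u i ≤ v - ∑ j, u (w j) := by
              intro l
              have h30 : (∑ j, u (w j)) l + u i l ≤ v l := h3 l
              change u i l ≤ v l - (∑ j, u (w j)) l
              omega
            have h5 := hs1 i h4
            rw [tsub_tsub] at h5
            exact h5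
          · intro h3
            refine hs2 i fun h4 => h3 ?_
            intro l
            have h5 : u i l ≤ v l - (∑ j, u (w j)) l := h4 l
            have h6 : (∑ j, u (w j)) l ≤ v l := h l
            change (∑ j, u (w j)) l + u i l ≤ v l
            omega
        · rw [← hs3]
          ring
      · refine ⟨0, fun _ => 0, ⟨fun h' => absurd h' h, fun _ => rfl⟩, ?_, ?_⟩
        · intro i
          refine ⟨fun h3 => absurd (fun l => ?_) h, fun _ => rfl⟩
          have h30 : (∑ j, u (w j)) l + u i l ≤ v l := h3 l
          change (∑ j, u (w j)) l ≤ v l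
          omega
        · rw [(hs w).2 h]
          simp
    choose k' s' hk' hs' hse using h1
    refine ⟨fun m w => if h : m = N then k' (fun j => w (Fin.cast h.symm j)) else k m w,
      fun w => s' (Fin.init w) (w (Fin.last N)), ?_, ?_, ?_⟩
    · intro m w
      by_cases h : m = N
      · subst h
        simp only [dif_pos]
        exact hk' w
      · simp only [dif_neg h]
        exact hk m w
    · intro w
      have h2 : ∑ j, u (w j) = ∑ j, u (Fin.init w j) + u (w (Fin.last N)) := by
        rw [Fin.sum_univ_castSucc]
        rfl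
      rw [h2]
      exact hs' (Fin.init w) (w (Fin.last N))
    · rw [Finset.sum_range_succ]
      have h2 : ∑ m ∈ Finset.range N, ∑ w : Fin m → Fin q, (∏ j, g (w j)) *
          (if h : m = N then k' (fun j => w (Fin.cast h.symm j)) else k m w) =
          ∑ m ∈ Finset.range N, ∑ w : Fin m → Fin q, (∏ j, g (w j)) * k m w := by
        refine Finset.sum_congr rfl fun m hm => ?_
        refine Finset.sum_congr rfl fun w _ => ?_
        have h3 : m ≠ N := by
          have := Finset.mem_range.1 hm
          omega
        rw [dif_neg h3]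
      rw [h2]
      have h4 : ∑ w : Fin (N + 1) → Fin q, (∏ j, g (w j)) * s' (Fin.init w) (w (Fin.last N)) =
          ∑ w : Fin N → Fin q, (∏ j, g (w j)) * ∑ i, g i * s' w i := by
        rw [← (Fin.snocEquiv (fun _ : Fin (N + 1) => Fin q)).sum_comp, Fintype.sum_prod_type, Finset.sum_comm]
        refine Finset.sum_congr rfl fun w _ => ?_
        rw [Finset.mul_sum]
        refine Finset.sum_congr rfl fun i _ => ?_
        have h5 : (Fin.snocEquiv (fun _ : Fin (N + 1) => Fin q)) (i, w) = Fin.snoc w i := rfl
        rw [h5, Fin.init_snoc, Fin.snoc_last, Fin.prod_univ_castSucc, Fin.snoc_last, mul_assoc]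
        simp only [Fin.snoc_castSucc]
      rw [h4]
      conv_lhs => rw [hFe]
      rw [add_assoc]
      congr 1
      rw [← Finset.sum_add_distrib]
      refine Finset.sum_congr rfl fun w _ => ?_
      have h6 : (fun (m : ℕ) (w : Fin m → Fin q) =>
          if h : m = N then k' (fun j => w (Fin.cast h.symm j)) else k m w) N w = k' w := by
        simp only [dif_pos]
        rfl
      rw [h6, hse w]
      ring
end Pool.Agent.CVX
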