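import Pool.Agent.helper33.CVX.Spec

set_option autoImplicit false

namespace Pool.Agent.CVX

open MvPolynomial

theorem DEC_bm {ι : Type} [Fintype ι] [DecidableEq ι] (n : ι → ℕ) (a : ∀ i, Fin (n i + 1)) (N : ℕ) :
    bm n a ^ N = monomial (∑ i, Finsupp.single (⟨i, a i⟩ : Vr n) N) (1 : ℂ) := by
  rw [monomial_sum_one, bm, ← Finset.prod_pow]
  refine Finset.prod_congr rfl fun i _ => ?_
  rw [X_pow_eq_monomial]

theorem DEC_le {ι : Type} [Fintype ι] [DecidableEq ι] (n : ι → ℕ) (a : ∀ i, Fin (n i + 1)) (N : ℕ)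
    (m : Vr n →₀ ℕ) (h : ∀ i, N ≤ m ⟨i, a i⟩) : ∑ i, Finsupp.single (⟨i, a i⟩ : Vr n) N ≤ m := by
  classical
  intro v
  obtain ⟨i, b⟩ := v
  rw [Finsupp.finset_sum_apply]
  rw [Finset.sum_eq_single i]
  · by_cases hb : b = a i
    · subst hb
      rw [Finsupp.single_eq_same]
      exact h i
    · rw [Finsupp.single_eq_of_ne]
      · exact Nat.zero_le _
      · intro hh
        apply hb
        have := (Sigma.mk.inj_iff.1 hh).2
        exact eq_of_heq this
  · intro k _ hk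
    rw [Finsupp.single_eq_of_ne]
    intro hh
    apply hk
    exact ((Sigma.mk.inj_iff.1 hh).1).symm
  · intro hh
    exact absurd (Finset.mem_univ i) hh

theorem DEC_mono {ι : Type} [Fintype ι] [DecidableEq ι] (n : ι → ℕ) (N : ℕ) (v : ι → ℕ)
    (hv : ∀ i, N * (n i + 1) ≤ v i) (s : MvPolynomial (Vr n) ℂ) (hs : MHom n v s)
    (J : Ideal (MvPolynomial (Vr n) ℂ)) (G : MvPolynomial (Vr n) ℂ)
    (hJ : ∀ a : ∀ i, Fin (n i + 1), G * bm n a ^ N ∈ J) : G * s ∈ J := by
  classical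
  rw [MvPolynomial.as_sum s, Finset.mul_sum]
  refine Ideal.sum_mem _ fun m hm => ?_
  have hm' : ∀ i, ∃ a : Fin (n i + 1), N ≤ m ⟨i, a⟩ := by
    intro i
    have h1 := hs m hm i
    have h2 : ∑ _a : Fin (n i + 1), N ≤ ∑ a : Fin (n i + 1), m ⟨i, a⟩ := by
      rw [Finset.sum_const, Finset.card_univ, Fintype.card_fin, smul_eq_mul, mul_comm]
      unfold mdeg at h1
      rw [h1]
      exact hv i
    obtain ⟨a, _, ha⟩ := Finset.exists_le_of_sum_le (s := (Finset.univ : Finset (Fin (n i + 1)))) Finset.univ_nonempty h2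
    exact ⟨a, ha⟩
  choose a ha using hm'
  have h3 := DEC_le n a N m ha
  have h4 : (monomial m (coeff m s) : MvPolynomial (Vr n) ℂ) =
      bm n a ^ N * monomial (m - ∑ i, Finsupp.single (⟨i, a i⟩ : Vr n) N) (coeff m s) := by
    rw [DEC_bm, monomial_mul, one_mul, add_tsub_cancel_of_le h3]
  rw [h4, ← mul_assoc]
  exact Ideal.mul_mem_right _ _ (hJ a)

theorem DEC_compl {ι : Type} [Fintype ι] [DecidableEq ι] (hFDM : FDM_stmt) (n : ι → ℕ) (Z : Set (Vr n → ℂ))
    (w : ι → ℕ) : ∃ M : Submodule ℂ (MvPolynomial (Vr n) ℂ), M ≤ Sv n w ∧ Module.Finite ℂ M ∧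
      Module.finrank ℂ M ≤ hZ n Z w ∧
      ∀ F, MHom n w F → ∃ k ∈ M, ∀ x ∈ Z, eval x (F - k) = 0 := by
  classical
  haveI := hFDM ι n w
  obtain ⟨σ, hσ⟩ := LinearMap.exists_rightInverse_of_surjective ((ev n Z).submoduleMap (Sv n w))
    (LinearMap.range_eq_top.2 (LinearMap.submoduleMap_surjective _ _))
  haveI : Module.Finite ℂ ((Sv n w).map (ev n Z)) := Module.Finite.map _ _
  refine ⟨LinearMap.range ((Sv n w).subtype ∘ₗ σ), ?_, inferInstance, ?_, ?_⟩
  · rintro _ ⟨y, rfl⟩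
    exact (σ y).2
  · exact LinearMap.finrank_range_le _
  · intro F hF
    refine ⟨_, ⟨(ev n Z).submoduleMap (Sv n w) ⟨F, hF⟩, rfl⟩, ?_⟩
    intro x hx
    have h1 := congrArg (fun f => f ((ev n Z).submoduleMap (Sv n w) ⟨F, hF⟩)) hσ
    have h2 : (ev n Z) (σ ((ev n Z).submoduleMap (Sv n w) ⟨F, hF⟩)).1 = (ev n Z) F := congrArg Subtype.val h1
    have h3 := congrFun h2 ⟨x, hx⟩
    change eval x (σ ((ev n Z).submoduleMap (Sv n w) ⟨F, hF⟩)).1 = eval x F at h3
    change eval x (F - (σ ((ev n Z).submoduleMap (Sv n w) ⟨F, hF⟩)).1) = 0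
    rw [map_sub, h3, sub_self]

theorem DEC (hFDM : FDM_stmt) (hMNT : MNT_stmt) (hDE1 : DE1_stmt) : DEC_stmt := by
  classical
  intro ι _ _ n Z hP q g u hG J N hJ
  choose M hMS hMf hMr hMk using DEC_compl (ι := ι) hFDM n Z
  refine ⟨Fintype.card (Σ m : Fin N, (Fin m → Fin q)) * ∏ i, (n i + 1),
    fun i => N * (n i + 1) + N * ∑ j, u j i, ?_⟩
  intro v hv
  let M' : (Σ m : Fin N, (Fin m → Fin q)) → Submodule ℂ (MvPolynomial (Vr n) ℂ) :=
    fun mw => if ∑ j, u (mw.2 j) ≤ v then M (v - ∑ j, u (mw.2 j)) else ⊥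
  haveI hfin : ∀ mw, Module.Finite ℂ (M' mw) := by
    intro mw
    by_cases h : ∑ j, u (mw.2 j) ≤ v
    · have : M' mw = M (v - ∑ j, u (mw.2 j)) := if_pos h
      rw [this]
      exact hMf _
    · have : M' mw = ⊥ := if_neg h
      rw [this]
      infer_instance
  let Ψ : (∀ mw, M' mw) →ₗ[ℂ] (MvPolynomial (Vr n) ℂ ⧸ J) :=
    ∑ mw : (Σ m : Fin N, (Fin m → Fin q)),
      (Ideal.Quotient.mkₐ ℂ J).toLinearMap ∘ₗ (LinearMap.mulLeft ℂ (∏ j, g (mw.2 j))) ∘ₗ
        (M' mw).subtype ∘ₗ LinearMap.proj mw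
  have h1 : (Sv n v).map (Ideal.Quotient.mkₐ ℂ J).toLinearMap ≤ LinearMap.range Ψ := by
    rintro _ ⟨F, hF, rfl⟩
    obtain ⟨k, s, hk, hs, hFe⟩ := hDE1 ι n Z q g u hG M hMS hMk N v F hF
    have hk' : ∀ mw : (Σ m : Fin N, (Fin m → Fin q)), k mw.1 mw.2 ∈ M' mw := by
      intro mw
      by_cases h : ∑ j, u (mw.2 j) ≤ v
      · have : M' mw = M (v - ∑ j, u (mw.2 j)) := if_pos h
        rw [this]
        exact (hk _ _).1 h
      · have : M' mw = ⊥ := if_neg h
        rw [this]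
        exact (hk _ _).2 h
    refine ⟨fun mw => ⟨k mw.1 mw.2, hk' mw⟩, ?_⟩
    have h2 : Ψ (fun mw => ⟨k mw.1 mw.2, hk' mw⟩) =
        ∑ mw : (Σ m : Fin N, (Fin m → Fin q)), Ideal.Quotient.mk J ((∏ j, g (mw.2 j)) * k mw.1 mw.2) := by
      simp only [Ψ, LinearMap.sum_apply]
      rfl
    rw [h2, Fintype.sum_sigma, ← Finset.sum_range (fun m => ∑ w : Fin m → Fin q,
      Ideal.Quotient.mk J ((∏ j, g (w j)) * k m w))]
    have h3 : ∀ w : Fin N → Fin q, (∏ j, g (w j)) * s w ∈ J := by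
      intro w
      by_cases h : ∑ j, u (w j) ≤ v
      · refine DEC_mono n N (v - ∑ j, u (w j)) ?_ (s w) ((hs w).1 h) J _ (hJ w)
        intro i
        have h5 : (∑ j, u (w j)) i ≤ N * ∑ j, u j i := by
          rw [Finset.sum_apply]
          calc ∑ j : Fin N, u (w j) i ≤ ∑ _j : Fin N, ∑ j, u j i := by
                refine Finset.sum_le_sum fun j _ => ?_
                exact Finset.single_le_sum (f := fun j => u j i) (fun _ _ => Nat.zero_le _) (Finset.mem_univ (w j))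
            _ = N * ∑ j, u j i := by
                rw [Finset.sum_const, Finset.card_univ, Fintype.card_fin, smul_eq_mul]
        have h6 := hv i
        simp only at h6
        rw [Pi.sub_apply]
        omega
      · rw [(hs w).2 h, mul_zero]
        exact J.zero_mem
    change _ = Ideal.Quotient.mk J F
    conv_rhs => rw [hFe]
    rw [map_add, map_sum, map_sum]
    have h4 : ∑ w : Fin N → Fin q, Ideal.Quotient.mk J ((∏ j, g (w j)) * s w) = 0 := by
      refine Finset.sum_eq_zero fun w _ => ?_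
      exact Ideal.Quotient.eq_zero_iff_mem.2 (h3 w)
    rw [h4, add_zero]
    refine Finset.sum_congr rfl fun m _ => ?_
    rw [map_sum]
  calc qd n J v = Module.finrank ℂ ((Sv n v).map (Ideal.Quotient.mkₐ ℂ J).toLinearMap) := rfl
    _ ≤ Module.finrank ℂ (LinearMap.range Ψ) := Submodule.finrank_mono h1
    _ ≤ Module.finrank ℂ (∀ mw, M' mw) := LinearMap.finrank_range_le _
    _ = ∑ mw, Module.finrank ℂ (M' mw) := Module.finrank_pi_fintype ℂ
    _ ≤ ∑ _mw : (Σ m : Fin N, (Fin m → Fin q)), (∏ i, (n i + 1)) * hZ n Z v := by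
        refine Finset.sum_le_sum fun mw _ => ?_
        by_cases h : ∑ j, u (mw.2 j) ≤ v
        · have : M' mw = M (v - ∑ j, u (mw.2 j)) := if_pos h
          rw [this]
          exact (hMr _).trans (hMNT ι n Z hP _ _ tsub_le_self)
        · have : M' mw = ⊥ := if_neg h
          rw [this, finrank_bot]
          exact Nat.zero_le _
    _ = _ := by
        rw [Finset.sum_const, Finset.card_univ, smul_eq_mul, mul_assoc]

end Pool.Agent.CVX
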