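import Mathlib

/-!
# MP_b3a64d_ag: complete intersections in products of projective spaces all of whose rational curves are free

Definitions. A point of `∏ P^(n i)` is represented by a vector of coordinates which is nonzero in every group.
A rational curve is given by binary forms of degree `e i` in the group `i` without common zeros. It is free if
`H¹(P¹, f^* T_X (-1)) = 0`; by the Euler sequence and the normal sequence (`X` is a smooth complete intersection of
multidegrees `d j`) this says that the map `(g_v) ↦ (∑_v (∂_v F_j)(f) g_v)_j`,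
`⊕ ℂ[s,t]_(e i - 1) → ⊕_j ℂ[s,t]_(D_j - 1)`, `D_j = ∑ d j i e i`, is onto.
-/

set_option autoImplicit false

namespace Pool.Agent.CVX

open MvPolynomial

/-- the coordinates `x_{i,0}, ..., x_{i,n i}` of the product of the projective spaces `P^(n i)` -/
abbrev Vr {ι : Type} (n : ι → ℕ) : Type := Σ i : ι, Fin (n i + 1)

/-- the degree of a monomial in the variables of the group `i` -/
def mdeg {ι : Type} (n : ι → ℕ) (m : Vr n →₀ ℕ) (i : ι) : ℕ := ∑ a : Fin (n i + 1), m ⟨i, a⟩

/-- multihomogeneous polynomials of multidegree `d` (the zero polynomial included) -/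
def MHom {ι : Type} (n d : ι → ℕ) (F : MvPolynomial (Vr n) ℂ) : Prop := ∀ m ∈ F.support, ∀ i, mdeg n m i = d i

/-- vectors of homogeneous coordinates of the points of the product of the projective spaces -/
def Pt {ι : Type} (n : ι → ℕ) (x : Vr n → ℂ) : Prop := ∀ i, ∃ a, x ⟨i, a⟩ ≠ 0

/-- `F_j = 0` (`j ∈ J`) defines a smooth subvariety of codimension `#J` (or the empty set) -/
def SmoothCI {ι J : Type} (n : ι → ℕ) (F : J → MvPolynomial (Vr n) ℂ) : Prop :=
  ∀ x, Pt n x → (∀ j, eval x (F j) = 0) → LinearIndependent ℂ (fun j : J => fun v : Vr n => eval x (pderiv v (F j)))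

/-- a rational curve, i.e. a non-constant morphism from the projective line to `{F = 0}` -/
structure RatCurve {ι J : Type} (n : ι → ℕ) (F : J → MvPolynomial (Vr n) ℂ) where
  /-- the degree of the curve in the factor `i` -/
  e : ι → ℕ
  /-- the coordinates of the morphism -/
  f : Vr n → MvPolynomial (Fin 2) ℂ
  hom : ∀ v, (f v).IsHomogeneous (e v.1)
  pt : ∀ s : Fin 2 → ℂ, s ≠ 0 → Pt n (fun v => eval s (f v))
  on : ∀ j, bind₁ f (F j) = 0
  nonconst : ∃ i, e i ≠ 0

/-- freeness of a rational curve on the smooth complete intersection `{F = 0}` of multidegrees `d j`, all `d j i ≥ 1`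
(see `Data`; then `D_j = ∑ d j i e i ≥ 1` for a rational curve and the subtraction in `D_j - 1` is the true one; for
`e i = 0` there are no forms of degree `e i - 1 = -1`, so `g v = 0`): this says `H¹(P¹, f^* T_X (-1)) = 0` -/
def Free {ι J : Type} [Fintype ι] (n : ι → ℕ) (d : J → ι → ℕ) (F : J → MvPolynomial (Vr n) ℂ)
    (γ : RatCurve n F) : Prop :=
  ∀ c : J → MvPolynomial (Fin 2) ℂ, (∀ j, (c j).IsHomogeneous (∑ i, d j i * γ.e i - 1)) →
    ∃ g : Vr n → MvPolynomial (Fin 2) ℂ, (∀ v, (g v).IsHomogeneous (γ.e v.1 - 1)) ∧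
      (∀ v, γ.e v.1 = 0 → g v = 0) ∧ ∀ j, ∑ v : Vr n, bind₁ γ.f (pderiv v (F j)) * g v = c j

/-! ### Auxiliary definitions for the proof -/

/-- the space of the multihomogeneous polynomials of multidegree `v` -/
def Sv {ι : Type} (n v : ι → ℕ) : Submodule ℂ (MvPolynomial (Vr n) ℂ) where
  carrier := {F | MHom n v F}
  add_mem' := by
    classical
    intro F G hF hG m hm
    rcases Finset.mem_union.1 (support_add hm) with h | h
    · exact hF m h
    · exact hG m h
  zero_mem' := by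
    intro m hm
    simp at hm
  smul_mem' := by
    intro c F hF m hm
    exact hF m (support_smul hm)

/-- the component of multidegree `v` -/
noncomputable def comp {ι : Type} (n v : ι → ℕ) (F : MvPolynomial (Vr n) ℂ) : MvPolynomial (Vr n) ℂ := by
  classical
  exact ∑ m ∈ F.support.filter (fun m => ∀ i, mdeg n m i = v i), monomial m (coeff m F)

/-- evaluation on a set of points -/
noncomputable def ev {ι : Type} (n : ι → ℕ) (Z : Set (Vr n → ℂ)) : MvPolynomial (Vr n) ℂ →ₗ[ℂ] (Z → ℂ) where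
  toFun F z := eval z.1 F
  map_add' F G := by
    funext z
    simp
  map_smul' c F := by
    funext z
    simp

/-- the dimension of the space of the functions on `Z` given by the forms of multidegree `v` -/
noncomputable def hZ {ι : Type} (n : ι → ℕ) (Z : Set (Vr n → ℂ)) (v : ι → ℕ) : ℕ :=
  Module.finrank ℂ ((Sv n v).map (ev n Z))

/-- the ideal of `Z` -/
def VI {ι : Type} (n : ι → ℕ) (Z : Set (Vr n → ℂ)) : Ideal (MvPolynomial (Vr n) ℂ) where
  carrier := {p | ∀ x ∈ Z, eval x p = 0}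
  add_mem' := by
    intro p q hp hq x hx
    rw [map_add, hp x hx, hq x hx, add_zero]
  zero_mem' := by
    intro x _
    simp
  smul_mem' := by
    intro c p hp x hx
    rw [smul_eq_mul, map_mul, hp x hx, mul_zero]

/-- the dimension of the degree `v` part of the quotient by the ideal `I` -/
noncomputable def qd {ι : Type} (n : ι → ℕ) (I : Ideal (MvPolynomial (Vr n) ℂ)) (v : ι → ℕ) : ℕ :=
  Module.finrank ℂ ((Sv n v).map (Ideal.Quotient.mkₐ ℂ I).toLinearMap)

/-- `Z` is stable under the torus -/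
def TS {ι : Type} (n : ι → ℕ) (Z : Set (Vr n → ℂ)) : Prop :=
  ∀ x ∈ Z, ∀ t : ι → ℂ, (∀ i, t i ≠ 0) → (fun v : Vr n => t v.1 * x v) ∈ Z

/-- `Z` is closed in the set of the points of the product -/
def Cl {ι : Type} (n : ι → ℕ) (Z : Set (Vr n → ℂ)) : Prop :=
  ∃ I : Ideal (MvPolynomial (Vr n) ℂ), Z = {x | Pt n x ∧ ∀ p ∈ I, eval x p = 0}

/-- growth of order `D` -/
def Gr {ι : Type} (n : ι → ℕ) (Z : Set (Vr n → ℂ)) (D : ℕ) : Prop :=
  ∃ c : ℝ, 0 < c ∧ ∃ T₀ : ℕ, ∀ T : ℕ, T₀ ≤ T → c * (T : ℝ) ^ D ≤ (hZ n Z (fun _ => T) : ℝ)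

/-- the monomials `∏ x_{i, a i}` -/
noncomputable def bm {ι : Type} [Fintype ι] (n : ι → ℕ) (a : ∀ i, Fin (n i + 1)) : MvPolynomial (Vr n) ℂ :=
  ∏ i, X ⟨i, a i⟩

/-- `g`, of multidegrees `u`, generate the ideal of `Z`, in the graded sense -/
structure Gens {ι : Type} (n : ι → ℕ) (Z : Set (Vr n → ℂ)) (q : ℕ) (g : Fin q → MvPolynomial (Vr n) ℂ)
    (u : Fin q → ι → ℕ) : Prop where
  hom : ∀ i, MHom n (u i) (g i)
  van : ∀ i, ∀ x ∈ Z, eval x (g i) = 0
  gen : ∀ (v : ι → ℕ) (F : MvPolynomial (Vr n) ℂ), MHom n v F → (∀ x ∈ Z, eval x F = 0) →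
    ∃ s : Fin q → MvPolynomial (Vr n) ℂ, (∀ i, u i ≤ v → MHom n (v - u i) (s i)) ∧
      (∀ i, ¬ u i ≤ v → s i = 0) ∧ F = ∑ i, g i * s i

/-- the degree `T` part of the section ring of `P(⊕ O(d j))`: the span of the monomials `x^α λ^β` with `|β| = T` and
multidegree of `x^α` equal to `∑ β_j d_j` -/
noncomputable def AT {ι J : Type} [Fintype J] (n : ι → ℕ) (d : J → ι → ℕ) (T : ℕ) :
    Submodule ℂ (MvPolynomial (Vr n ⊕ J) ℂ) :=
  Submodule.span ℂ {p | ∃ m : (Vr n ⊕ J) →₀ ℕ, p = monomial m 1 ∧ ∑ j, m (Sum.inr j) = T ∧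
    ∀ i, ∑ a : Fin (n i + 1), m (Sum.inl ⟨i, a⟩) = ∑ j, m (Sum.inr j) * d j i}

/-- all rational curves on `{F = 0}` are free -/
def AllFree {ι J : Type} [Fintype ι] (n : ι → ℕ) (d : J → ι → ℕ) (F : J → MvPolynomial (Vr n) ℂ) : Prop :=
  ∀ γ : RatCurve n F, Free n d F γ

/-- the standing assumptions: multihomogeneous equations of positive multidegrees -/
structure Data {ι J : Type} (n : ι → ℕ) (d : J → ι → ℕ) (F : J → MvPolynomial (Vr n) ℂ) : Prop where
  pos : ∀ j i, 1 ≤ d j i
  hom : ∀ j, MHom n (d j) (F j)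

end Pool.Agent.CVX
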