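import Pool.Agent.helper33.CVX.Spec

set_option autoImplicit false

namespace Pool.Agent.CVX

open MvPolynomial

theorem EUL_mono {ι : Type} (n : ι → ℕ) (m : Vr n →₀ ℕ) (c : ℂ) (v : Vr n) (x : Vr n → ℂ) :
    x v * eval x (pderiv v (monomial m c)) = (m v : ℂ) * eval x (monomial m c) := by
  classical
  rw [pderiv_monomial]
  by_cases hv : m v = 0
  · simp [hv]
  · have h1 : m = (m - Finsupp.single v 1) + Finsupp.single v 1 := by
      rw [tsub_add_cancel_of_le]
      rw [Finsupp.single_le_iff]
      omega
    conv_rhs => rw [h1]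
    have h2 : (monomial (m - Finsupp.single v 1 + Finsupp.single v 1) c : MvPolynomial (Vr n) ℂ) =
        monomial (m - Finsupp.single v 1) c * X v := by
      rw [← pow_one (X v), X_pow_eq_monomial, monomial_mul, mul_one]
    rw [h2]
    have h3 : (monomial (m - Finsupp.single v 1) (c * (m v : ℂ)) : MvPolynomial (Vr n) ℂ) =
        C (m v : ℂ) * monomial (m - Finsupp.single v 1) c := by
      rw [C_mul_monomial, mul_comm]
    rw [h3, map_mul, map_mul, eval_C, eval_X]
    have h4 : ((m - Finsupp.single v 1 + Finsupp.single v 1 : Vr n →₀ ℕ) v) = m v := by rw [← h1]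
    rw [h4]
    ring

theorem EUL : EUL_stmt := by
  classical
  intro ι n d F hF i x
  have h1 : ∀ v : Vr n, x v * eval x (pderiv v F) = ∑ m ∈ F.support, (m v : ℂ) * eval x (monomial m (coeff m F)) := by
    intro v
    conv_lhs => rw [MvPolynomial.as_sum F]
    rw [map_sum, map_sum, Finset.mul_sum]
    refine Finset.sum_congr rfl fun m _ => ?_
    exact EUL_mono n m _ v x
  simp only [h1]
  rw [Finset.sum_comm]
  conv_rhs => rw [MvPolynomial.as_sum F]
  rw [map_sum, Finset.mul_sum]
  refine Finset.sum_congr rfl fun m hm => ?_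
  rw [← Finset.sum_mul]
  congr 1
  rw [← hF m hm i]
  unfold mdeg
  push_cast
  rfl

end Pool.Agent.CVX
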