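import Pool.Agent.helper33.CVX.Spec

set_option autoImplicit false

namespace Pool.Agent.CVX

open MvPolynomial

theorem FDM : FDM_stmt := by
  classical
  intro ι _ n v
  have h1 : Sv n v ≤ restrictTotalDegree (Vr n) ℂ (∑ i, v i) := by
    intro F hF
    rw [mem_restrictTotalDegree]
    refine Finset.sup_le fun m hm => ?_
    rw [Finsupp.sum_fintype _ _ (fun _ => rfl), Fintype.sum_sigma]
    refine le_of_eq ?_
    refine Finset.sum_congr rfl fun i _ => ?_
    exact hF m hm i
  exact Module.Finite.of_injective (Submodule.inclusion h1) (Submodule.inclusion_injective h1)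

end Pool.Agent.CVX
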