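import Pool.Agent.helper33.CVX.Spec

set_option autoImplicit false

namespace Pool.Agent.CVX

open MvPolynomial

theorem FGH_compz {ι : Type} [Fintype ι] [DecidableEq ι] (n : ι → ℕ)
    (c3 : ∀ (v : ι → ℕ) (F G : MvPolynomial (Vr n) ℂ), comp n v (F + G) = comp n v F + comp n v G)
    (v : ι → ℕ) {κ : Type} (s : Finset κ) (F : κ → MvPolynomial (Vr n) ℂ) :
    comp n v (∑ k ∈ s, F k) = ∑ k ∈ s, comp n v (F k) := by
  classical
  have h0 : comp n v (0 : MvPolynomial (Vr n) ℂ) = 0 := by
    have := c3 v 0 0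
    rw [add_zero] at this
    exact left_eq_add.1 this
  induction s using Finset.induction_on with
  | empty => simp [h0]
  | insert a s ha ih => rw [Finset.sum_insert ha, Finset.sum_insert ha, c3, ih]

theorem FGH (hCMP : CMP_stmt) (hHMC : HMC_stmt) : FGH_stmt := by
  classical
  intro ι _ _ n Z hZ
  obtain ⟨c1, c2, c3, c4, c5, c6⟩ := hCMP ι n
  have hfg : (VI n Z).FG := IsNoetherian.noetherian _
  obtain ⟨S, hS⟩ := hfg
  choose V hV using c6
  let I := Σ k : {p // p ∈ S}, {w // w ∈ V k.1}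
  let e : Fin (Fintype.card I) ≃ I := (Fintype.equivFin I).symm
  refine ⟨Fintype.card I, fun i => comp n (e i).2.1 (e i).1.1, fun i => (e i).2.1, ?_, ?_, ?_⟩
  · intro i
    exact c1 _ _
  · intro i x hx
    refine hHMC ι n Z hZ _ ?_ _ x hx
    have h1 : (e i).1.1 ∈ VI n Z := by
      rw [← hS]
      exact Ideal.subset_span (e i).1.2
    exact h1
  · intro v F hF hFZ
    have h1 : F ∈ Ideal.span (S : Set (MvPolynomial (Vr n) ℂ)) := by
      rw [hS]
      exact hFZ
    obtain ⟨c, hc⟩ := Submodule.mem_span_finset'.1 h1 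
    refine ⟨fun i => if (e i).2.1 ≤ v then comp n (v - (e i).2.1) (c (e i).1) else 0, ?_, ?_, ?_⟩
    · intro i hi
      simp only [if_pos hi]
      exact c1 _ _
    · intro i hi
      simp only [if_neg hi]
    · rw [e.sum_comp (fun z : I => comp n z.2.1 z.1.1 * if z.2.1 ≤ v then comp n (v - z.2.1) (c z.1) else 0)]
      rw [Fintype.sum_sigma]
      conv_lhs => rw [← c2 v F hF, ← hc]
      rw [FGH_compz n c3]
      refine Finset.sum_congr rfl fun k _ => ?_
      rw [smul_eq_mul]
      conv_lhs => rw [hV k.1, Finset.mul_sum]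
      rw [FGH_compz n c3, ← Finset.sum_coe_sort]
      refine Finset.sum_congr rfl fun w _ => ?_
      rw [mul_comm (c k)]
      by_cases hw : w.1 ≤ v
      · rw [if_pos hw, c4 w.1 v _ _ (c1 _ _) hw]
      · rw [if_neg hw, mul_zero, c5 w.1 v _ _ (c1 _ _) hw]

end Pool.Agent.CVX
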