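import Pool.Agent.helper33.CVX.Spec

set_option autoImplicit false

namespace Pool.Agent.CVX

open MvPolynomial

theorem FIN (hCSA : CSA_stmt) (hRNK : RNK_stmt) (hCSB : CSB_stmt) (hCMB : CMB_stmt) (hMTX : MTX_stmt) :
    FIN_stmt := by
  classical
  intro k r n d F hr hn hD _ i i' hii h1 h2 hAF
  haveI : Nonempty (Fin r) := ⟨⟨0, hr⟩⟩
  have hd1 := hCSA (Fin k) n (Fin r) d F hD hAF i i' hii h1 h2
  have hd2 := hCSA (Fin k) n (Fin r) d F hD hAF i' i hii.symm h2 h1
  have hc1 : Fintype.card (Fin r) ≤ n i := by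
    have h3 : ∑ _j : Fin r, 1 ≤ ∑ j, d j i := Finset.sum_le_sum fun j _ => hD.pos j i
    rw [Finset.sum_const, Finset.card_univ, smul_eq_mul, mul_one] at h3
    exact h3.trans h1
  have hc2 : Fintype.card (Fin r) ≤ n i' := by
    have h3 : ∑ _j : Fin r, 1 ≤ ∑ j, d j i' := Finset.sum_le_sum fun j _ => hD.pos j i'
    rw [Finset.sum_const, Finset.card_univ, smul_eq_mul, mul_one] at h3
    exact h3.trans h2
  have hb1 := hCSB (Fin k) n (Fin r) d F hD hAF i hd1 hc1
  have hb2 := hCSB (Fin k) n (Fin r) d F hD hAF i' hd2 hc2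
  rw [Fintype.card_fin] at hb1 hb2
  obtain ⟨hr1, hnn, hall⟩ := hCMB (Fin k) n r i i' hn hr hii hb1 hb2
  have hk : k = 2 := by
    have h3 : (Finset.univ : Finset (Fin k)) = {i, i'} := by
      ext l
      simp only [Finset.mem_univ, Finset.mem_insert, Finset.mem_singleton, true_iff]
      exact hall l
    have h4 := congrArg Finset.card h3
    rw [Finset.card_univ, Fintype.card_fin, Finset.card_pair hii] at h4
    exact h4
  refine ⟨hr1, hk, hnn, ?_⟩
  subst hr1
  have hd : d 0 = fun _ => 1 := by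
    funext l
    rcases hall l with h | h
    · rw [h]
      exact hd1 0
    · rw [h]
      exact hd2 0
  have hF : MHom n (fun _ => 1) (F 0) := by
    have := hD.hom 0
    rw [hd] at this
    exact this
  obtain ⟨A, B, hAB, hBA, hFe⟩ := hMTX (Fin k) n (F 0) i i' hii hall hnn hF (by
    intro x hx
    obtain ⟨a, ha⟩ := hRNK (Fin k) n (Fin 1) d F hD hAF i hd1 hc1 x hx (fun _ => 1) ⟨0, one_ne_zero⟩
    refine ⟨a, ?_⟩
    rw [Fin.sum_univ_one, one_mul] at ha
    exact ha)
  refine ⟨A, B, hAB, hBA, fun j => ?_⟩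
  rw [Subsingleton.elim j 0]
  exact hFe

end Pool.Agent.CVX
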