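import Pool.Agent.helper33.CVX.Spec

set_option autoImplicit false

namespace Pool.Agent.CVX

open MvPolynomial

theorem HSC : HSC_stmt := by
  classical
  intro ι _ n w f hf t x
  rw [eval_eq', eval_eq', Finset.mul_sum]
  refine Finset.sum_congr rfl fun m hm => ?_
  have h1 : ∏ v : Vr n, (t v.1 * x v) ^ m v = (∏ i, t i ^ w i) * ∏ v : Vr n, x v ^ m v := by
    simp only [mul_pow, Finset.prod_mul_distrib]
    congr 1
    rw [Fintype.prod_sigma]
    refine Finset.prod_congr rfl fun i _ => ?_
    change ∏ y, t i ^ m ⟨i, y⟩ = _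
    rw [Finset.prod_pow_eq_pow_sum, ← hf m hm i]
    rfl
  rw [h1]
  ring

end Pool.Agent.CVX
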