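import Pool.Agent.helper33.CVX.Spec

set_option autoImplicit false

namespace Pool.Agent.CVX

open MvPolynomial

theorem LEN (hHSC : HSC_stmt) (hGR0 : GR0_stmt) (hIND : IND_stmt) : LEN_stmt := by
  classical
  intro ι _ _ _ n J _ _ w f hw hf hJ
  have hTS : ∀ s : Finset J, TS n {x | Pt n x ∧ ∀ j ∈ s, eval x (f j) = 0} := by
    intro s x hx t ht
    refine ⟨fun i => ?_, fun j hj => ?_⟩
    · obtain ⟨a, ha⟩ := hx.1 i
      exact ⟨a, mul_ne_zero (ht i) ha⟩
    · rw [hHSC ι n (w j) (f j) (hf j) t x, hx.2 j hj, mul_zero]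
  have hCl : ∀ s : Finset J, Cl n {x | Pt n x ∧ ∀ j ∈ s, eval x (f j) = 0} := by
    intro s
    refine ⟨Ideal.span (f '' (s : Set J)), ?_⟩
    ext x
    refine ⟨fun hx => ⟨hx.1, fun p hp => ?_⟩, fun hx => ⟨hx.1, fun j hj => ?_⟩⟩
    · have h1 : Ideal.span (f '' (s : Set J)) ≤ RingHom.ker (eval x) := by
        rw [Ideal.span_le]
        rintro _ ⟨j, hj, rfl⟩
        exact hx.2 j hj
      exact h1 hp
    · exact hx.2 (f j) (Ideal.subset_span ⟨j, hj, rfl⟩)
  have hGr : ∀ s : Finset J, Gr n {x | Pt n x ∧ ∀ j ∈ s, eval x (f j) = 0} (∑ i, n i - s.card) := by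
    intro s
    induction s using Finset.induction_on with
    | empty =>
      have h1 : {x : Vr n → ℂ | Pt n x ∧ ∀ j ∈ (∅ : Finset J), eval x (f j) = 0} = {x | Pt n x} := by
        ext x
        simp
      rw [h1, Finset.card_empty, Nat.sub_zero]
      exact hGR0 ι n
    | insert j s hj ih =>
      have h1 : {x : Vr n → ℂ | Pt n x ∧ ∀ k ∈ insert j s, eval x (f k) = 0} =
          {x | x ∈ {x : Vr n → ℂ | Pt n x ∧ ∀ k ∈ s, eval x (f k) = 0} ∧ eval x (f j) = 0} := by
        ext x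
        simp only [Set.mem_setOf_eq, Finset.mem_insert, forall_eq_or_imp]
        tauto
      rw [h1]
      have h2 : (insert j s).card ≤ Fintype.card J := Finset.card_le_univ _
      rw [Finset.card_insert_of_notMem hj] at h2 ⊢
      have h3 : ∑ i, n i - s.card = (∑ i, n i - (s.card + 1)) + 1 := by omega
      rw [h3] at ih
      exact hIND ι n _ (fun x hx => hx.1) (hTS s) (hCl s) (w j) (hw j) (f j) (hf j) _ ih
  obtain ⟨c, hc, T0, hT⟩ := hGr Finset.univ
  by_contra hcon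
  push Not at hcon
  have hempty : {x : Vr n → ℂ | Pt n x ∧ ∀ j ∈ (Finset.univ : Finset J), eval x (f j) = 0} = ∅ := by
    ext x
    simp only [Set.mem_setOf_eq, Set.mem_empty_iff_false, iff_false, not_and]
    intro hx h
    obtain ⟨j, hj⟩ := hcon x hx
    exact hj (h j (Finset.mem_univ j))
  have h1 := hT (T0 + 1) (Nat.le_succ T0)
  rw [hempty] at h1
  have h2 : hZ n (∅ : Set (Vr n → ℂ)) (fun _ => T0 + 1) = 0 := by
    unfold hZ
    haveI : IsEmpty (↑(∅ : Set (Vr n → ℂ))) := Set.isEmpty_coe_sort.2 rfl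
    rw [Submodule.eq_bot_of_subsingleton (p := (Sv n fun _ => T0 + 1).map (ev n ∅)), finrank_bot]
  rw [h2, Nat.cast_zero] at h1
  have h3 : 0 < c * ((T0 + 1 : ℕ) : ℝ) ^ (∑ i, n i - (Finset.univ : Finset J).card) := by
    positivity
  linarith

end Pool.Agent.CVX
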