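import Pool.Agent.helper33.CVX.Spec

set_option autoImplicit false

namespace Pool.Agent.CVX

open MvPolynomial

theorem MUL : MUL_stmt := by
  classical
  intro ι n d e F G hF hG m hm i
  obtain ⟨a, ha, b, hb, rfl⟩ := Finset.mem_add.1 (support_mul F G hm)
  have h1 := hF a ha i
  have h2 := hG b hb i
  unfold mdeg at h1 h2 ⊢
  change _ = d i + e i
  rw [← h1, ← h2, ← Finset.sum_add_distrib]
  rfl

end Pool.Agent.CVX
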