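import Pool.Agent.helper33.CVX.Spec

set_option autoImplicit false

namespace Pool.Agent.CVX

open MvPolynomial

theorem NST : NST_stmt := by
  intro σ _ I b h
  have h1 : b ∈ vanishingIdeal ℂ (zeroLocus ℂ I) := by
    rw [mem_vanishingIdeal_iff]
    intro x hx
    have := h x (fun p hp => hx p hp)
    exact this
  rw [vanishingIdeal_zeroLocus_eq_radical] at h1
  obtain ⟨N, hN⟩ := h1
  exact ⟨N, hN⟩

end Pool.Agent.CVX
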