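import Pool.Agent.helper33.CVX.Spec

set_option autoImplicit false

namespace Pool.Agent.CVX

open MvPolynomial

theorem RNK (hPDV : PDV_stmt) (hEUL : EUL_stmt) (hRES : RES_stmt) (hLIN : LIN_stmt) (hCRV : CRV_stmt)
    (hNFR : NFR_stmt) : RNK_stmt := by
  classical
  intro ι _ _ n J _ _ d F hD hAF i hd hJ x hx l hl
  by_contra hcon
  push Not at hcon
  -- a solution of the linear system
  let L : (Fin (n i + 1) → ℂ) →ₗ[ℂ] (J → ℂ) :=
    { toFun := fun y j => ∑ a, y a * eval x (pderiv ⟨i, a⟩ (F j))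
      map_add' := by
        intro y z
        funext j
        simp only [Pi.add_apply, add_mul, Finset.sum_add_distrib]
      map_smul' := by
        intro c y
        funext j
        simp only [Pi.smul_apply, smul_eq_mul, RingHom.id_apply, Finset.mul_sum, mul_assoc] }
  have h1 : LinearMap.ker L ≠ ⊥ := by
    apply LinearMap.ker_ne_bot_of_finrank_lt
    rw [Module.finrank_fintype_fun_eq_card, Module.finrank_fintype_fun_eq_card, Fintype.card_fin]
    omega
  obtain ⟨y, hy, hy0⟩ := Submodule.exists_mem_ne_zero_of_ne_bot h1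
  have hy' : ∀ j, ∑ a, y a * eval x (pderiv ⟨i, a⟩ (F j)) = 0 := fun j => congrFun hy j
  let p : Vr n → ℂ := fun v => if h : v.1 = i then y (Fin.cast (by rw [h]) v.2) else x v
  have hpi : ∀ a : Fin (n i + 1), p ⟨i, a⟩ = y a := by
    intro a
    simp only [p, dif_pos]
    rfl
  have hpk : ∀ v : Vr n, v.1 ≠ i → p v = x v := by
    intro v hv
    simp only [p, dif_neg hv]
  have hpP : Pt n p := by
    intro k
    by_cases hk : k = i
    · subst hk
      by_contra hc
      push Not at hc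
      apply hy0
      funext a
      rw [← hpi a, hc a]
      rfl
    · obtain ⟨a, ha⟩ := hx k
      exact ⟨a, by rw [hpk ⟨k, a⟩ hk]; exact ha⟩
  have hder : ∀ j (a : Fin (n i + 1)), eval p (pderiv ⟨i, a⟩ (F j)) = eval x (pderiv ⟨i, a⟩ (F j)) := by
    intro j a
    have h2 := hPDV ι n (d j) (F j) (hD.hom j) i a
    obtain ⟨F', _, hF'⟩ := hRES ι n _ _ i h2 (by simp [hd j])
    rw [hF' p, hF' x]
    have h3 : (fun v : Vr (fun k : {k : ι // k ≠ i} => n k.1) => p ⟨v.1.1, v.2⟩) =
        fun v : Vr (fun k : {k : ι // k ≠ i} => n k.1) => x ⟨v.1.1, v.2⟩ := by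
      funext v
      exact hpk _ v.1.2
    rw [h3]
  have hF0 : ∀ j, eval p (F j) = 0 := by
    intro j
    have h4 := hEUL ι n (d j) (F j) (hD.hom j) i p
    rw [hd j, Nat.cast_one, one_mul] at h4
    rw [← h4, ← hy' j]
    refine Finset.sum_congr rfl fun a _ => ?_
    rw [hpi, hder]
  have hsum : ∀ a : Fin (n i + 1), ∑ j, l j * eval p (pderiv ⟨i, a⟩ (F j)) = 0 := by
    intro a
    rw [← hcon a]
    refine Finset.sum_congr rfl fun j _ => ?_
    rw [hder]
  have hdi : ∑ j, d j i ≤ n i := by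
    have : ∑ j, d j i = Fintype.card J := by
      rw [Finset.sum_congr rfl (fun j _ => hd j), Finset.sum_const, Finset.card_univ, smul_eq_mul, mul_one]
    rw [this]
    exact hJ
  obtain ⟨V, _, hV2, hV3⟩ := hLIN ι n J d F hD i p hpP hF0 l hl hsum hdi
  obtain ⟨γ, hγe, hγf⟩ := hCRV ι n J F i p V hpP hV2 hV3
  exact hNFR ι n J d F i p V γ hγe hγf l hl hsum (hAF γ)

end Pool.Agent.CVX
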