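import Pool.Agent.helper33.CVX.FIN
import Pool.Agent.helper85.CVX.CMB
import Pool.Agent.helper16.CVX.CMP
import Pool.Agent.helper53.CVX.CRV
import Pool.Agent.helper33.CVX.CSA
import Pool.Agent.helper33.CVX.CSB
import Pool.Agent.helper33.CVX.DE1
import Pool.Agent.helper33.CVX.DEC
import Pool.Agent.helper33.CVX.EUL
import Pool.Agent.helper33.CVX.FDM
import Pool.Agent.helper33.CVX.FGH
import Pool.Agent.helper80.CVX.GR0
import Pool.Agent.helper16.CVX.HMC
import Pool.Agent.helper33.CVX.HSC
import Pool.Agent.helper80.CVX.IND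
import Pool.Agent.helper33.CVX.LEN
import Pool.Agent.helper80.CVX.LIA
import Pool.Agent.helper80.CVX.LIN
import Pool.Agent.helper50.CVX.MNT
import Pool.Agent.helper39.CVX.MTX
import Pool.Agent.helper33.CVX.MUL
import Pool.Agent.helper77.CVX.NFR
import Pool.Agent.helper33.CVX.NST
import Pool.Agent.helper32.CVX.PDV
import Pool.Agent.helper16.CVX.QUO
import Pool.Agent.helper16.CVX.RES
import Pool.Agent.helper33.CVX.RNK
import Pool.Agent.helper16.CVX.STP
import Pool.Agent.helper31.CVX.TWA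
import Pool.Agent.helper36.CVX.TWB
import Pool.Agent.helper72.CVX.TWH
import Pool.Agent.helper94.CVX.TWL

set_option autoImplicit false

namespace Pool.Agent.CVX

theorem main_LEN : LEN_stmt :=
  LEN HSC (GR0 FDM) (IND (MNT FDM MUL)
    (STP NST HSC (FGH CMP (HMC HSC CMP)) (QUO FDM CMP (HMC HSC CMP)) (DEC FDM (MNT FDM MUL) DE1)))

theorem main_LIN : LIN_stmt := LIN main_LEN (LIA HSC)

theorem main_RNK : RNK_stmt := RNK PDV EUL RES main_LIN CRV NFR

theorem main : FIN_stmt :=
  FIN (CSA PDV EUL main_LEN main_LIN CRV NFR) main_RNK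
    (CSB PDV RES main_RNK (TWH (TWA NST) TWB TWL)) CMB MTX

end Pool.Agent.CVX
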