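import Pool.Agent.helper33.CVX.Defs

/-!
# MP_b3a64d_ag: the rows `cvx:*`

Theorem (FIN). Let `X ⊂ ∏ P^(n l)` (at least two factors, all `n l ≥ 1`) be a smooth complete intersection of `r ≥ 1`
divisors of multidegrees `d j` with all entries `≥ 1`, and suppose `∑_j d j i ≤ n i` and `∑_j d j i' ≤ n i'` for two
indices `i ≠ i'`. If every rational curve on `X` is free, then `r = 1`, there are exactly two factors, `n i = n i'` and `X`
is given by a nondegenerate bilinear form, i.e. it is the variety of flags (point, hyperplane).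

Idea. (1) If `p ∈ X` and the derivatives `∂F_j/∂x_{i,a}(p)` are linearly dependent over `j` (`∑ λ_j ∂_{i,a} F_j(p) = 0`
for all `a`), then there is a line through `p` in the factor `i`, contained in `X` (`∑ d j i ≤ n i`; one of the equations
is superfluous), and it is not free. (2) If some `d j i ≥ 2` such a `p` exists by the multiprojective dimension theorem
(LEN). (3) If all `d j i = 1`, a count of dimensions on the projective bundle `P(⊕ O(d j))` (TWH) gives
`∑_{l ≠ i} n l + r ≤ n i + 1`. The same for `i'`; the rest is arithmetic.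

Notation in the proofs: `S_v = Sv n v`, `h_Z(v) = hZ n Z v`, `K = ∏ (n i + 1)`.
Every row: `theorem XX (h : YY_stmt) ... : XX_stmt`; the hypotheses (other rows) are in the lock note.
-/

set_option autoImplicit false

namespace Pool.Agent.CVX

open MvPolynomial

/-! ### Block A: tools -/

/-- NST (short). Nullstellensatz in the form we use. Proof: `MvPolynomial.vanishingIdeal_zeroLocus_eq_radical` (or its
form in the current Mathlib): `b` lies in the vanishing ideal of the zero locus of `I`, which is the radical of `I`. -/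
def NST_stmt : Prop :=
  ∀ (σ : Type) [Finite σ] (I : Ideal (MvPolynomial σ ℂ)) (b : MvPolynomial σ ℂ),
    (∀ x : σ → ℂ, (∀ p ∈ I, eval x p = 0) → eval x b = 0) → ∃ N : ℕ, b ^ N ∈ I

/-- FDM (short). Proof: every monomial `m` of an element of `S_v` has `m ⟨i, a⟩ ≤ v i`, so `S_v` is contained in the span
of finitely many monomials (e.g. `S_v ≤ restrictTotalDegree _ ℂ (∑ v i)`, or `Finsupp.supported` of the finite set of the
`m ≤` the finsupp with the values `v i`). -/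
def FDM_stmt : Prop :=
  ∀ (ι : Type) [Fintype ι] (n v : ι → ℕ), Module.Finite ℂ (Sv n v)

/-- MUL (short). Proof: a monomial of `F * G` is a sum of a monomial of `F` and a monomial of `G`
(`MvPolynomial.support_mul`), and `mdeg` is additive. -/
def MUL_stmt : Prop :=
  ∀ (ι : Type) (n d e : ι → ℕ) (F G : MvPolynomial (Vr n) ℂ), MHom n d F → MHom n e G →
    MHom n (fun l => d l + e l) (F * G)

/-- PDV (short). Proof: `coeff m (pderiv v F) = (m v + 1) * coeff (m + single v 1) F` (or `pderiv_monomial` and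
linearity), so if `m` is in the support of the derivative then `m + single v 1` is in the support of `F`. -/
def PDV_stmt : Prop :=
  ∀ (ι : Type) [DecidableEq ι] (n d : ι → ℕ) (F : MvPolynomial (Vr n) ℂ), MHom n d F →
    ∀ (i : ι) (a : Fin (n i + 1)), MHom n (fun l => if l = i then d l - 1 else d l) (pderiv ⟨i, a⟩ F)

/-- EUL (short). Euler's formula in the group `i`. Proof: write `F` as the sum of its monomials; for one monomial `c x^m`
(`pderiv_monomial`) `x_v ∂_v (c x^m) = m_v c x^m`, and `∑_a m ⟨i, a⟩ = d i`. -/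
def EUL_stmt : Prop :=
  ∀ (ι : Type) (n d : ι → ℕ) (F : MvPolynomial (Vr n) ℂ), MHom n d F →
    ∀ (i : ι) (x : Vr n → ℂ), ∑ a : Fin (n i + 1), x ⟨i, a⟩ * eval x (pderiv ⟨i, a⟩ F) = (d i : ℂ) * eval x F

/-- HSC (short). Proof: expand `F` in monomials (`eval_eq'`); `∏_v (t_{v.1} x_v)^(m v) = (∏_i t_i^(mdeg m i)) ∏_v x_v^(m v)`
(`Fintype.prod_sigma`). -/
def HSC_stmt : Prop :=
  ∀ (ι : Type) [Fintype ι] (n w : ι → ℕ) (f : MvPolynomial (Vr n) ℂ), MHom n w f →
    ∀ (t : ι → ℂ) (x : Vr n → ℂ), eval (fun v : Vr n => t v.1 * x v) f = (∏ i, t i ^ w i) * eval x f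

/-- CMP (short-medium). Calculus of components. Proof: `coeff m (comp n v F) = if mdeg n m = v then coeff m F else 0`
(`comp` is a sum of monomials); all the claims are comparisons of coefficients. For (4), (5): `coeff m (G * F)` is the sum
over the antidiagonal of `m` of `coeff a G * coeff b F`; if `coeff a G ≠ 0` then `mdeg a = u`, so `mdeg m = v` iff `u ≤ v`
and `mdeg b = v - u` (by bilinearity one can also take `F` a monomial first). (6): `V` = the image of the support of `F`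
under `mdeg n`. -/
def CMP_stmt : Prop :=
  ∀ (ι : Type) [Fintype ι] [DecidableEq ι] (n : ι → ℕ),
    (∀ (v : ι → ℕ) (F : MvPolynomial (Vr n) ℂ), MHom n v (comp n v F)) ∧
    (∀ (v : ι → ℕ) (F : MvPolynomial (Vr n) ℂ), MHom n v F → comp n v F = F) ∧
    (∀ (v : ι → ℕ) (F G : MvPolynomial (Vr n) ℂ), comp n v (F + G) = comp n v F + comp n v G) ∧
    (∀ (u v : ι → ℕ) (G F : MvPolynomial (Vr n) ℂ), MHom n u G → u ≤ v →
      comp n v (G * F) = G * comp n (v - u) F) ∧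
    (∀ (u v : ι → ℕ) (G F : MvPolynomial (Vr n) ℂ), MHom n u G → ¬ u ≤ v → comp n v (G * F) = 0) ∧
    ∀ F : MvPolynomial (Vr n) ℂ, ∃ V : Finset (ι → ℕ), F = ∑ v ∈ V, comp n v F

/-- HMC (short-medium). The components of a polynomial vanishing on a torus-stable set vanish on it. Proof: let `x ∈ Z`.
By CMP (6) and HSC, for all `t` with all `t i ≠ 0`: `0 = F(t x) = ∑_{w ∈ V} (∏ t_i^(w i)) F_w(x)`. So the polynomial
`P = ∑_{w ∈ V} F_w(x) T^w` in the variables `T_i` vanishes at all such `t`, `P * ∏ T_i` vanishes everywhere, hence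
`P * ∏ T_i = 0` (`MvPolynomial.funext`) and `P = 0`; compare the coefficients: `F_w(x) = 0` for `w ∈ V`. If `v ∉ V` then
`comp n v F = ∑_{w ∈ V} comp v (comp w F) = 0` (from CMP (3), (5) and (4), or directly from the coefficients: a monomial of
`comp n w F` has `mdeg = w ≠ v`). -/
def HMC_stmt : Prop :=
  ∀ (ι : Type) [Fintype ι] [DecidableEq ι] (n : ι → ℕ) (Z : Set (Vr n → ℂ)), TS n Z →
    ∀ F : MvPolynomial (Vr n) ℂ, (∀ x ∈ Z, eval x F = 0) → ∀ (v : ι → ℕ), ∀ x ∈ Z, eval x (comp n v F) = 0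

/-- FGH (short-medium). Proof: the ideal `VI n Z` is finitely generated (`MvPolynomial` in finitely many variables over
`ℂ` is noetherian) by `p_1, ..., p_m`. For each `p_k` let `V_k` be as in CMP (6). The finite family
`comp n w p_k` (`w ∈ V_k`), with multidegrees `w`, vanishes on `Z` by HMC. If `F` is of multidegree `v` and vanishes on `Z`
then `F = ∑ c_k p_k = ∑_k ∑_{w ∈ V_k} c_k comp_w(p_k)`, and taking `comp n v` (CMP (2), (3), (4), (5))
`F = ∑_{k, w ∈ V_k, w ≤ v} comp_w(p_k) comp_(v-w)(c_k)`. Reindex the finite family by `Fin q` (`Fintype.equivFin` of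
`Σ k : Fin m, V_k`). -/
def FGH_stmt : Prop :=
  ∀ (ι : Type) [Fintype ι] [DecidableEq ι] (n : ι → ℕ) (Z : Set (Vr n → ℂ)), TS n Z →
    ∃ (q : ℕ) (g : Fin q → MvPolynomial (Vr n) ℂ) (u : Fin q → ι → ℕ), Gens n Z q g u

/-! ### Block B: growth of the functions `h_Z` -/

/-- MNT (short-medium). Proof: for `a : ∀ i, Fin (n i + 1)` the multiplication by (the restriction to `Z` of)
`∏_i x_{i, a i}^(v' i - v i)` maps `W_v = (S_v).map (ev n Z)` to `W_(v')` (MUL; the monomial has multidegree `v' - v`).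
The linear map `W_v → ∀ a, W_(v')`, `φ ↦ (φ ∏_i x_{i,a i}^(v' i - v i))_a` is injective: if `φ` is in the kernel and
`z ∈ Z`, choose `a` with all `z ⟨i, a i⟩ ≠ 0` (`Pt`): `φ(z) = 0`. Take `finrank` (`W_(v')` is finite-dimensional by FDM;
`Module.finrank_pi_fintype`, `Fintype.card_pi`). -/
def MNT_stmt : Prop :=
  ∀ (ι : Type) [Fintype ι] [DecidableEq ι] (n : ι → ℕ) (Z : Set (Vr n → ℂ)), (∀ x ∈ Z, Pt n x) →
    ∀ v v' : ι → ℕ, v ≤ v' → hZ n Z v ≤ (∏ i, (n i + 1)) * hZ n Z v'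

/-- GR0 (medium). `h(T, ..., T) ≥ c T^(∑ n)` for the whole space. Proof: `Z = {x | Pt n x}`, `v = (T, ..., T)`.
`ev n Z` is injective on `S_v`: if `P ∈ S_v` vanishes on `Z` then `P * ∏_i x_{i,0}` vanishes everywhere (if all
`x_{i,0} ≠ 0` then `Pt n x`), so it is `0` (`MvPolynomial.funext`) and `P = 0`. Hence `h_Z(v) = finrank S_v` is at least the
number of monomials of multidegree `v`. For each function `b` on the pairs `(i, a)`, `a ∈ Fin (n i)`, with values in
`{0, ..., ⌊T/(n i + 1)⌋}` there is the monomial with the exponents `b (i, a)` at `⟨i, a.succ⟩` and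
`T - ∑_a b (i, a) ≥ 0` at `⟨i, 0⟩`; they are distinct. Their number is `∏_i (⌊T/(n i + 1)⌋ + 1)^(n i) ≥ c T^(∑ n i)`,
`c = ∏_i (1/(n i + 1))^(n i)`. -/
def GR0_stmt : Prop :=
  ∀ (ι : Type) [Fintype ι] [DecidableEq ι] (n : ι → ℕ), Gr n {x | Pt n x} (∑ i, n i)

/-- QUO (medium). Proof: put `S = S_(v+w)`, `I = VI n Z`, `J = I ⊔ (f)`. Linear algebra: for linear maps `A : S → W`,
`B : S → Q` from a finite-dimensional space `rank A ≤ rank (A restricted to ker B) + rank B` (rank-nullity three times).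
Apply it to `A = ev n Z` and `B =` the map to the quotient by `J`: it remains to see that the image under `ev n Z` of
`S ∩ J` has dimension `≤ h_Z(v)`. Let `F ∈ S ∩ J`, `F = p + f c`, `p ∈ I`. Apply `comp n (v + w)` (CMP (2), (3), (4)):
`F = comp_(v+w)(p) + f comp_v(c)`, and `comp_(v+w)(p)` vanishes on `Z` (HMC). So `ev F = ev(f) * ev(comp_v c)` lies in the
image of `W_v = (S_v).map (ev n Z)` under the multiplication by the function `f|Z`, of dimension `≤ finrank W_v`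
(`W_v` is finite-dimensional by FDM). -/
def QUO_stmt : Prop :=
  ∀ (ι : Type) [Fintype ι] [DecidableEq ι] (n : ι → ℕ) (Z : Set (Vr n → ℂ)), TS n Z →
    ∀ (v w : ι → ℕ) (f : MvPolynomial (Vr n) ℂ), MHom n w f →
      hZ n Z (v + w) ≤ hZ n Z v + qd n (VI n Z ⊔ Ideal.span {f}) (v + w)

/-- DE1 (short-medium). Decomposition along the powers of the ideal of `Z`. Here `M w` is any space of representatives:
`M w ≤ S_w` and every form of multidegree `w` is congruent, modulo the forms vanishing on `Z`, to an element of `M w`.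
Proof by induction on `N`. `N = 0`: `s` of the empty word is `F` (`∏` over `Fin 0` is `1`, `∑` over `Fin 0` is `0`).
Step: every `s w` (`w : Fin N → Fin q`, of multidegree `v' = v - ∑_j u (w j)` if `∑_j u (w j) ≤ v`, otherwise `0`) is
`k + (s w - k)`, `k ∈ M v'`, and `s w - k`, of multidegree `v'` (as `M v' ≤ S_(v')`, `Sv` is a submodule) vanishes on `Z`,
so by `Gens.gen` it is `∑_i g_i s'_i`, where `s'_i` has multidegree `v' - u i` if `u i ≤ v'` and is `0` otherwise. Put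
`k N w = k` and `s_new (Fin.snoc w i) = s'_i` (`Fin.snocEquiv` or `Fin.init`, `Fin.last`, `Fin.prod_univ_castSucc`,
`Fin.sum_univ_castSucc`). -/
def DE1_stmt : Prop :=
  ∀ (ι : Type) [Fintype ι] [DecidableEq ι] (n : ι → ℕ) (Z : Set (Vr n → ℂ)) (q : ℕ)
    (g : Fin q → MvPolynomial (Vr n) ℂ) (u : Fin q → ι → ℕ), Gens n Z q g u →
    ∀ M : (ι → ℕ) → Submodule ℂ (MvPolynomial (Vr n) ℂ), (∀ w, M w ≤ Sv n w) →
      (∀ (w : ι → ℕ) (F : MvPolynomial (Vr n) ℂ), MHom n w F → ∃ k ∈ M w, ∀ x ∈ Z, eval x (F - k) = 0) →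
      ∀ (N : ℕ) (v : ι → ℕ) (F : MvPolynomial (Vr n) ℂ), MHom n v F →
        ∃ (k : ∀ m : ℕ, (Fin m → Fin q) → MvPolynomial (Vr n) ℂ) (s : (Fin N → Fin q) → MvPolynomial (Vr n) ℂ),
          (∀ (m : ℕ) (w : Fin m → Fin q), (∑ j, u (w j) ≤ v → k m w ∈ M (v - ∑ j, u (w j))) ∧
            (¬ ∑ j, u (w j) ≤ v → k m w = 0)) ∧
          (∀ w : Fin N → Fin q, (∑ j, u (w j) ≤ v → MHom n (v - ∑ j, u (w j)) (s w)) ∧
            (¬ ∑ j, u (w j) ≤ v → s w = 0)) ∧
          F = ∑ m ∈ Finset.range N, ∑ w : Fin m → Fin q, (∏ j, g (w j)) * k m w +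
            ∑ w : Fin N → Fin q, (∏ j, g (w j)) * s w

/-- DEC (medium). Proof: for each `w` choose a complement `M w ≤ S_w` of `S_w ⊓ ker (ev n Z)` in `S_w`; then
`finrank (M w) = h_Z(w)` (`ev` is injective on `M w` with the same image; FDM). Let
`v0 i = N (n i + 1) + N ∑_j u j i`. Let `v ≥ v0` and decompose `F ∈ S_v` by DE1. For a word `w` of length `N` we have
`∑_j u (w j) i ≤ N ∑_j u j i`, so `s w` has multidegree `v' = v - ∑_j u (w j)` with `v' i ≥ N (n i + 1)`; every monomial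
of `s w` has, in each group `i`, an exponent `≥ N` (pigeonhole, as the sum of the `n i + 1` exponents is
`≥ N (n i + 1)`), so it is divisible by `(bm n a)^N` for some `a`, and `(∏ g (w j)) s w ∈ J` by the hypothesis. So the image
of `S_v` in the quotient by `J` is contained in the sum, over the words `w` of length `m < N` with `∑ u (w j) ≤ v`, of the
images of `M (v - ∑ u (w j))` under linear maps (multiplication by `∏ g (w j)`), of dimensions
`≤ h_Z(v - ∑ u (w j)) ≤ K h_Z(v)` by MNT. `C = K * ∑_{m < N} q^m`. -/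
def DEC_stmt : Prop :=
  ∀ (ι : Type) [Fintype ι] [DecidableEq ι] (n : ι → ℕ) (Z : Set (Vr n → ℂ)), (∀ x ∈ Z, Pt n x) →
    ∀ (q : ℕ) (g : Fin q → MvPolynomial (Vr n) ℂ) (u : Fin q → ι → ℕ), Gens n Z q g u →
    ∀ (J : Ideal (MvPolynomial (Vr n) ℂ)) (N : ℕ),
      (∀ (w : Fin N → Fin q) (a : ∀ i, Fin (n i + 1)), (∏ j, g (w j)) * bm n a ^ N ∈ J) →
      ∃ (C : ℕ) (v0 : ι → ℕ), ∀ v : ι → ℕ, v0 ≤ v → qd n J v ≤ C * hZ n Z v

/-- STP (medium). Proof: let `Z' = {x ∈ Z | f(x) = 0}`; it is contained in the set of points and torus-stable (HSC). Take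
`q, g, u` for `Z'` (FGH) and `J = VI n Z ⊔ (f)`. For `i < q` and `a` the polynomial `g_i * bm n a` vanishes at the zeros
`x` of `J`: if `bm n a (x) ≠ 0` then `Pt n x`, and if `Z = {Pt ∧ all p ∈ I vanish}` (`Cl`) then `I ≤ VI n Z ≤ J`, so
`x ∈ Z`, and `f(x) = 0`, so `x ∈ Z'` and `g_i(x) = 0` (`Gens.van`). By NST some power of `g_i * bm n a` is in `J`; let `m`
be the maximum of the exponents over the finitely many `(i, a)` and `N = q m + 1`. A word `w : Fin N → Fin q` takes some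
value `i` at least `m + 1` times (pigeonhole, e.g. `Fintype.exists_lt_card_fiber_of_mul_lt_card`), so `∏ g (w j)` is a
multiple of `g_i^m`, `(bm n a)^N` is a multiple of `(bm n a)^m` (here `q ≥ 1`), and the product is in `J`. Apply DEC
(to `Z'`) and QUO: `h_Z(v + w) ≤ h_Z(v) + qd J (v + w) ≤ h_Z(v) + C h_(Z')(v + w)` for `v ≥ v0`. -/
def STP_stmt : Prop :=
  ∀ (ι : Type) [Fintype ι] [DecidableEq ι] (n : ι → ℕ) (Z : Set (Vr n → ℂ)), (∀ x ∈ Z, Pt n x) → TS n Z → Cl n Z →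
    ∀ (w : ι → ℕ) (f : MvPolynomial (Vr n) ℂ), MHom n w f →
      ∃ (C : ℕ) (v0 : ι → ℕ), ∀ v : ι → ℕ, v0 ≤ v →
        hZ n Z (v + w) ≤ hZ n Z v + C * hZ n {x | x ∈ Z ∧ eval x f = 0} (v + w)

/-- IND (medium). Proof: `Z' = {x ∈ Z | f(x) = 0}`, `C, v0` from STP; replace `C` by `C + 1 ≥ 1`. Let `T1` be a bound of
the `v0 i`, `v1 = (T1, ..., T1)`, `A = ∑ w i ≥ 1` (`ι` is nonempty), so `1 ≤ w i ≤ A`. Telescoping (STP at `v1 + k w`,
`k < m`) and MNT (`v1 + k w ≤ (T1 + m A)` for `k ≤ m`):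
`h_Z(v1 + m w) ≤ h_Z(v1) + C m K h_(Z')(T1 + m A)`, where `h(T) = h(T, ..., T)`. As `(m, ..., m) ≤ v1 + m w`, MNT gives
`h_Z(m) ≤ K h_Z(v1 + m w)`. So for large `m` `c m^(D+1) ≤ K h_Z(v1) + C K² m h_(Z')(T1 + m A)`, and when
`c m^(D+1) ≥ 2 K h_Z(v1)` (all large `m`) `h_(Z')(T1 + m A) ≥ c/(2 C K²) m^D`. For `T` large let
`m = ⌊(T - T1)/A⌋`; then `T1 + m A ≤ T`, `m ≥ T/(2A)`, and MNT gives
`h_(Z')(T) ≥ h_(Z')(T1 + m A)/K ≥ c'' T^D`. -/
def IND_stmt : Prop :=
  ∀ (ι : Type) [Fintype ι] [DecidableEq ι] [Nonempty ι] (n : ι → ℕ) (Z : Set (Vr n → ℂ)), (∀ x ∈ Z, Pt n x) →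
    TS n Z → Cl n Z → ∀ (w : ι → ℕ), (∀ i, 1 ≤ w i) → ∀ f : MvPolynomial (Vr n) ℂ, MHom n w f →
      ∀ D : ℕ, Gr n Z (D + 1) → Gr n {x | x ∈ Z ∧ eval x f = 0} D

/-- LEN (short-medium). At most `∑ n i` forms of positive multidegrees have a common zero. Proof: for a finite set
`s ⊆ J` let `Z_s = {x | Pt n x ∧ ∀ j ∈ s, f_j(x) = 0}`. It is torus-stable (HSC), `Cl` (the ideal spanned by the `f_j`,
`j ∈ s`). By induction on `s` (`Finset.induction_on`) `Gr n Z_s (∑ n i - #s)`: GR0 for `s = ∅` and IND for the step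
(`∑ n i - #s = (∑ n i - #s - 1) + 1` since `#s + 1 ≤ #J ≤ ∑ n i`). For `s = univ` the growth shows that
`h(T, ..., T) > 0` for some `T ≥ 1`, so `Z_univ` is nonempty (the functions on the empty set are `0`). -/
def LEN_stmt : Prop :=
  ∀ (ι : Type) [Fintype ι] [DecidableEq ι] [Nonempty ι] (n : ι → ℕ) (J : Type) [Fintype J] [DecidableEq J]
    (w : J → ι → ℕ) (f : J → MvPolynomial (Vr n) ℂ), (∀ j i, 1 ≤ w j i) → (∀ j, MHom n (w j) (f j)) →
    Fintype.card J ≤ ∑ i, n i → ∃ x, Pt n x ∧ ∀ j, eval x (f j) = 0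

/-! ### Block C: linear systems on the projective bundle `P(⊕ O(d j))` -/

/-- TWA (medium). Let `R = ℂ[x, λ] = MvPolynomial (Vr n ⊕ J) ℂ`, `G_a = ∑_j λ_j c_{j,a} ∈ R` and
`b_{j,e} = λ_j ∏_i x_{i, e i}`. Proof: `b_{j,e}` vanishes at the common zeros `(x, λ)` of the `G_a` (if `b_{j,e} ≠ 0` there
then `Pt n x` and `λ_j ≠ 0`, against the hypothesis). By NST there is `m` with `b_{j,e}^m ∈ (G_a)_a` for all `j, e`
(finitely many). Let `T ≥ #J m + ∑_i (n i + 1) m` and let `x^α λ^β` be one of the monomials spanning `A_(T+1)`: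
`∑ β_j = T + 1` so `β_j ≥ m` for some `j`; the degree of `x^α` in the group `i` is `∑ β_j d j i ≥ T + 1 ≥ (n i + 1) m`, so
`α ⟨i, e i⟩ ≥ m` for some `e i`. So the monomial is a multiple of `b_{j,e}^m` and equals `∑_a G_a p_a`, `p_a ∈ R`. Let
`π_T(p)` be the part of `p` consisting of the monomials of `A_T` (`|β| = T`, degree of `x^α` in the group `i` equal to
`∑ β_j d j i`). All the monomials of `G_a` are in `A_1`, and for a monomial `μ` of `A_1` and any monomial `ν`,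
`μ ν` is a monomial of `A_(T+1)` iff `ν` is a monomial of `A_T`; so `π_(T+1)(G_a p) = G_a π_T(p)` and the monomial is
`∑_a G_a π_T(p_a)`. Extend by linearity to `A_(T+1)`. -/
def TWA_stmt : Prop :=
  ∀ (ι : Type) [Fintype ι] [DecidableEq ι] (n : ι → ℕ) (J : Type) [Fintype J] [DecidableEq J] (d : J → ι → ℕ),
    (∀ j i, 1 ≤ d j i) → ∀ (N : ℕ) (c : J → Fin N → MvPolynomial (Vr n) ℂ), (∀ j a, MHom n (d j) (c j a)) →
    (∀ x, Pt n x → ∀ l : J → ℂ, (∃ j, l j ≠ 0) → ∃ a, ∑ j, l j * eval x (c j a) ≠ 0) →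
    ∃ T1 : ℕ, ∀ T : ℕ, T1 ≤ T → ∀ F ∈ AT n d (T + 1), ∃ p : Fin N → MvPolynomial (Vr n ⊕ J) ℂ,
      (∀ a, p a ∈ AT n d T) ∧ F = ∑ a, (∑ j, X (Sum.inr j) * rename Sum.inl (c j a)) * p a

/-- TWB (short-medium). Proof: by induction on `s`, every element of `A (T1 + s)` is
`∑_γ (∏_a G_a^(γ a)) p_γ`, where `γ` runs over the functions `Fin N → ℕ` with `∑ γ = s`
(`Finset.piAntidiag Finset.univ s`) and `p_γ ∈ A T1`. The number of these `γ` is at most `(s + 1)^(N - 1)`: for `N ≥ 1` the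
values at all the indices but one are `≤ s` and determine the last one; for `N = 0` it is `≤ 1`. So
`finrank A (T1 + s) ≤ (s + 1)^(N-1) finrank (A T1)` (sum of images of `A T1` under linear maps) and
`C = ∑_{T ≤ T1} finrank (A T)` works. -/
def TWB_stmt : Prop :=
  ∀ (R : Type) [CommRing R] [Algebra ℂ R] (A : ℕ → Submodule ℂ R), (∀ T, Module.Finite ℂ (A T)) →
    ∀ (N : ℕ) (G : Fin N → R) (T1 : ℕ),
      (∀ T : ℕ, T1 ≤ T → ∀ F ∈ A (T + 1), ∃ p : Fin N → R, (∀ a, p a ∈ A T) ∧ F = ∑ a, G a * p a) →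
      ∃ C : ℕ, ∀ T : ℕ, Module.finrank ℂ (A T) ≤ C * (T + 1) ^ (N - 1)

/-- TWL (medium). `A_T` is finite-dimensional and `dim A_T ≥ c (T + 1)^(∑ n + #J - 1)`. Proof: the spanning monomials have
total degree `T + ∑_i ∑_j β_j d j i`, bounded for given `T`, so there are finitely many. They are linearly independent, so
the dimension is their number. Fix `j0 ∈ J`. For a function `β` on the `j ≠ j0` with values in `{0, ..., ⌊T/#J⌋}` put
`β_{j0} = T - ∑ ≥ 0`; then `D_i = ∑ β_j d j i ≥ T` (`d j i ≥ 1`), and for each function `b` on the `(i, a)`,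
`a ∈ Fin (n i)`, with values in `{0, ..., ⌊T/(n i + 1)⌋}` there is the monomial with the exponents `b (i, a)` at
`x_{i, a.succ}` and `D_i - ∑_a b (i, a) ≥ 0` at `x_{i,0}`. They are distinct; their number is
`(⌊T/#J⌋ + 1)^(#J - 1) ∏_i (⌊T/(n i + 1)⌋ + 1)^(n i)`, and `⌊T/k⌋ + 1 ≥ (T + 1)/k`, so
`c = (1/#J)^(#J - 1) ∏_i (1/(n i + 1))^(n i)`. -/
def TWL_stmt : Prop :=
  ∀ (ι : Type) [Fintype ι] [DecidableEq ι] (n : ι → ℕ) (J : Type) [Fintype J] [DecidableEq J] [Nonempty J]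
    (d : J → ι → ℕ), (∀ j i, 1 ≤ d j i) → (∀ T, Module.Finite ℂ (AT n d T)) ∧
    ∃ c : ℝ, 0 < c ∧ ∀ T : ℕ, c * ((T : ℝ) + 1) ^ (∑ i, n i + Fintype.card J - 1) ≤ (Module.finrank ℂ (AT n d T) : ℝ)

/-- TWH (short). Proof: if `N = 0` take any `x` with all coordinates `1` and `l = 1` (`J` is nonempty). Let `N ≥ 1`. If
there is no such `(x, l)` then TWA and TWB (for `A = AT n d`, `G_a = ∑_j λ_j c_{j,a}`) give
`finrank A_T ≤ C (T + 1)^(N-1)`, against TWL for large `T` as `N - 1 < ∑ n + #J - 1`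
(`c (T + 1)^(e + 1) ≤ C (T + 1)^e` fails when `T + 1 > C/c`). -/
def TWH_stmt : Prop :=
  ∀ (ι : Type) [Fintype ι] [DecidableEq ι] (n : ι → ℕ) (J : Type) [Fintype J] [DecidableEq J] [Nonempty J]
    (d : J → ι → ℕ), (∀ j i, 1 ≤ d j i) → ∀ (N : ℕ) (c : J → Fin N → MvPolynomial (Vr n) ℂ),
    (∀ j a, MHom n (d j) (c j a)) → N + 1 ≤ ∑ i, n i + Fintype.card J →
    ∃ x, Pt n x ∧ ∃ l : J → ℂ, (∃ j, l j ≠ 0) ∧ ∀ a, ∑ j, l j * eval x (c j a) = 0

/-! ### Block D: lines in the factors and the theorem -/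

/-- LIA (medium). Expansion along a linear space in the group `i`. Proof: let `G(y)` be the polynomial
`F(p + M y) ∈ ℂ[y]` (`bind₁ (fun v => C (p v) + ∑ b, C (M v b) * X ⟨(), b⟩) F`) and `Φ_a` its part of degree `a`
(`homogeneousComponent a G`, in the variables `Vr (fun _ : Unit => q)`). Each monomial of `F` has degree `d i` in the
group `i` and `M v b = 0` outside the group `i`, so `G` has degree `≤ d i`. The constant term is `F(p)`; the linear part is
`∑_v (∂_v F)(p) (M y)_v` (Taylor; by linearity enough for monomials, or differentiate `t ↦ F(p + t M y)` at `0`). For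
`s ≠ 0`, HSC with the torus element `s` at `i` and `1` elsewhere gives
`F(s p_i + t (M y)_i, p') = s^(d i) F(p + (t/s) M y) = s^(d i) ∑_a (t/s)^a Φ_a(y) = ∑_a s^(d i - a) t^a Φ_a(y)`; both ends
are polynomials in `s`, so this holds for `s = 0` as well. -/
def LIA_stmt : Prop :=
  ∀ (ι : Type) [Fintype ι] [DecidableEq ι] (n d : ι → ℕ) (F : MvPolynomial (Vr n) ℂ), MHom n d F →
    ∀ (i : ι) (p : Vr n → ℂ) (q : ℕ) (M : Vr n → Fin (q + 1) → ℂ), (∀ v : Vr n, v.1 ≠ i → ∀ b, M v b = 0) →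
    ∃ Φ : ℕ → MvPolynomial (Vr (fun _ : Unit => q)) ℂ, (∀ a, MHom (fun _ : Unit => q) (fun _ => a) (Φ a)) ∧
      (∀ y, eval y (Φ 0) = eval p F) ∧
      (∀ y, eval y (Φ 1) = ∑ a : Fin (n i + 1), (∑ b, M ⟨i, a⟩ b * y ⟨(), b⟩) * eval p (pderiv ⟨i, a⟩ F)) ∧
      ∀ (s t : ℂ) (y : Vr (fun _ : Unit => q) → ℂ),
        eval (fun v : Vr n => if v.1 = i then s * p v + t * ∑ b, M v b * y ⟨(), b⟩ else p v) F =
          ∑ a ∈ Finset.range (d i + 1), s ^ (d i - a) * t ^ a * eval y (Φ a)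

/-- LIN (medium). Proof: let `l j1 ≠ 0`. Since `d j1 i ≥ 1`, `n i ≥ 1`; write `n i = q + 1`. Choose `a0` with
`p ⟨i, a0⟩ ≠ 0` and let `M` be the parametrization of the vectors `V` of the group `i` with `V ⟨i, a0⟩ = 0` by
`y ∈ ℂ^(q+1)` (`M ⟨i, a⟩ b = 1` if `a = a0.succAbove b` (with a cast) and `0` otherwise). Let `Φ_(j,a)` be the forms of LIA
for `F_j`. The pairs `(j, a)`, `1 ≤ a ≤ d j i`, other than `(j1, 1)`, are `∑_j d j i - 1 ≤ n i - 1 = q` in number, and
`Φ_(j,a)` is a form of degree `a ≥ 1` in `q + 1` variables, so by LEN (for `ι = Unit`) there is `y ≠ 0` with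
`Φ_(j,a)(y) = 0` for all of them. Also `Φ_(j1,1)(y) = 0`, because `∑_j l j Φ_(j,1)(y) = ∑_a (M y)_a ∑_j l j ∂_{i,a}F_j(p)
= 0`. And `Φ_(j,0) = F_j(p) = 0`. So with `V = M y` (`≠ 0`, since `y ≠ 0`) the expansion of LIA gives the last claim. For
the second: at `a0` the coordinate is `s p ⟨i, a0⟩`, nonzero if `s ≠ 0`; if `s = 0` then `t ≠ 0` and `t V ≠ 0`. -/
def LIN_stmt : Prop :=
  ∀ (ι : Type) [Fintype ι] [DecidableEq ι] (n : ι → ℕ) (J : Type) [Fintype J] [DecidableEq J] (d : J → ι → ℕ)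
    (F : J → MvPolynomial (Vr n) ℂ), Data n d F → ∀ (i : ι) (p : Vr n → ℂ), Pt n p → (∀ j, eval p (F j) = 0) →
    ∀ l : J → ℂ, (∃ j, l j ≠ 0) → (∀ a : Fin (n i + 1), ∑ j, l j * eval p (pderiv ⟨i, a⟩ (F j)) = 0) →
    ∑ j, d j i ≤ n i →
    ∃ V : Vr n → ℂ, (∀ v : Vr n, v.1 ≠ i → V v = 0) ∧
      (∀ s t : ℂ, (s ≠ 0 ∨ t ≠ 0) → ∃ a : Fin (n i + 1), s * p ⟨i, a⟩ + t * V ⟨i, a⟩ ≠ 0) ∧
      ∀ (j : J) (s t : ℂ), eval (fun v : Vr n => if v.1 = i then s * p v + t * V v else p v) (F j) = 0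

/-- CRV (short). Proof: the degrees are clear; `pt`: for `s ≠ 0` (so `s 0 ≠ 0 ∨ s 1 ≠ 0`) the group `i` has a nonzero
coordinate by the hypothesis and in the other groups the coordinates are those of `p`; `on`: the binary form
`bind₁ f (F j)` vanishes at all points (`MvPolynomial.funext`, `eval (bind₁ ..)` is the evaluation of `F j` at the
evaluated coordinates); `nonconst`: `e i = 1`. -/
def CRV_stmt : Prop :=
  ∀ (ι : Type) [Fintype ι] [DecidableEq ι] (n : ι → ℕ) (J : Type) (F : J → MvPolynomial (Vr n) ℂ) (i : ι)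
    (p V : Vr n → ℂ), Pt n p →
    (∀ s t : ℂ, (s ≠ 0 ∨ t ≠ 0) → ∃ a : Fin (n i + 1), s * p ⟨i, a⟩ + t * V ⟨i, a⟩ ≠ 0) →
    (∀ (j : J) (s t : ℂ), eval (fun v : Vr n => if v.1 = i then s * p v + t * V v else p v) (F j) = 0) →
    ∃ γ : RatCurve n F, (∀ k, γ.e k = if k = i then 1 else 0) ∧
      ∀ v : Vr n, γ.f v = if v.1 = i then C (p v) * X 0 + C (V v) * X 1 else C (p v)

/-- NFR (short-medium). Proof: suppose `Free n d F γ` and `l j1 ≠ 0`. `∑_k d j k e k = d j i`. Take `c j1 = X 0^(d j1 i - 1)`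
and `c j = 0` for `j ≠ j1`; let `g` be the solution. `g v = 0` for `v.1 ≠ i` (`e = 0`). Evaluate the equation `j` at
`(1, 0)`: `f` becomes `p`, so `∑_a ∂_{i,a}F_j(p) g_{i,a}(1,0) = c_j(1,0)`, which is `1` for `j = j1` and `0` otherwise.
Multiply by `l j` and sum over `j`: the left side is `∑_a g_{i,a}(1,0) ∑_j l j ∂_{i,a}F_j(p) = 0`, the right side is
`l j1 ≠ 0`. -/
def NFR_stmt : Prop :=
  ∀ (ι : Type) [Fintype ι] [DecidableEq ι] (n : ι → ℕ) (J : Type) [Fintype J] [DecidableEq J] (d : J → ι → ℕ)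
    (F : J → MvPolynomial (Vr n) ℂ) (i : ι) (p V : Vr n → ℂ) (γ : RatCurve n F),
    (∀ k, γ.e k = if k = i then 1 else 0) →
    (∀ v : Vr n, γ.f v = if v.1 = i then C (p v) * X 0 + C (V v) * X 1 else C (p v)) →
    ∀ l : J → ℂ, (∃ j, l j ≠ 0) → (∀ a : Fin (n i + 1), ∑ j, l j * eval p (pderiv ⟨i, a⟩ (F j)) = 0) →
    ¬ Free n d F γ

/-- CSA (short-medium). Proof: suppose `d j0 i ≠ 1`, so `d j0 i ≥ 2`. Consider the forms `∂_{i,a}F_{j0}` (`a ∈ Fin (n i + 1)`)
and `F_j` (`j ≠ j0`). They have positive multidegrees (PDV; `d j0 i - 1 ≥ 1`), and their number is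
`n i + 1 + #J - 1 = n i + #J ≤ n i + n i' ≤ ∑ n l` (as `#J ≤ ∑_j d j i' ≤ n i'`). By LEN (for the index type
`Fin (n i + 1) ⊕ {j // j ≠ j0}`) they have a common zero `p`, and `F_{j0}(p) = 0` by EUL (`d j0 i ≠ 0`). With
`l = Pi.single j0 1` LIN, CRV and NFR give a curve which is not free. -/
def CSA_stmt : Prop :=
  ∀ (ι : Type) [Fintype ι] [DecidableEq ι] (n : ι → ℕ) (J : Type) [Fintype J] [DecidableEq J] (d : J → ι → ℕ)
    (F : J → MvPolynomial (Vr n) ℂ), Data n d F → AllFree n d F → ∀ i i' : ι, i ≠ i' → ∑ j, d j i ≤ n i →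
    ∑ j, d j i' ≤ n i' → ∀ j, d j i = 1

/-- RES (short-medium). A form of degree `0` in the group `i` is a form in the other groups. Proof: no monomial of `F`
contains a variable of the group `i` (`mdeg n m i = d i = 0` is a sum of naturals). Take `F'` = the image of `F` under
`aeval` with `x_{k,a} ↦ X ⟨⟨k, _⟩, a⟩` for `k ≠ i` and `x_{i,a} ↦ 0` (or
`∑_m monomial (m restricted) (coeff m F)`). For a single monomial `m` of `F` the image is the monomial with the exponents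
`m ⟨k, a⟩`, of multidegree `d` restricted, and its value is the value of the monomial `m`; sum up. -/
def RES_stmt : Prop :=
  ∀ (ι : Type) [Fintype ι] [DecidableEq ι] (n d : ι → ℕ) (F : MvPolynomial (Vr n) ℂ) (i : ι), MHom n d F → d i = 0 →
    ∃ F' : MvPolynomial (Vr (fun k : {k : ι // k ≠ i} => n k.1)) ℂ,
      MHom (fun k : {k : ι // k ≠ i} => n k.1) (fun k => d k.1) F' ∧
      ∀ x : Vr n → ℂ, eval x F = eval (fun v : Vr (fun k : {k : ι // k ≠ i} => n k.1) => x ⟨v.1.1, v.2⟩) F'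

/-- RNK (short-medium). Proof: suppose that `∑_j l j ∂_{i,a}F_j(x) = 0` for all `a`. The `#J ≤ n i` linear equations
`∑_a y_a ∂_{i,a}F_j(x) = 0` in `n i + 1` unknowns have a nonzero solution `y`. Let `p` be `y` in the group `i` and `x` in
the others; `Pt n p`. `∂_{i,a}F_j` has degree `0` in the group `i` (PDV), so its values at `p` and at `x` are equal (RES).
By EUL `F_j(p) = ∑_a y_a ∂_{i,a}F_j(p) = 0` (`d j i = 1`). Now LIN (`∑_j d j i = #J ≤ n i`), CRV and NFR give a curve which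
is not free. -/
def RNK_stmt : Prop :=
  ∀ (ι : Type) [Fintype ι] [DecidableEq ι] (n : ι → ℕ) (J : Type) [Fintype J] [DecidableEq J] (d : J → ι → ℕ)
    (F : J → MvPolynomial (Vr n) ℂ), Data n d F → AllFree n d F → ∀ i : ι, (∀ j, d j i = 1) →
    Fintype.card J ≤ n i → ∀ x, Pt n x → ∀ l : J → ℂ, (∃ j, l j ≠ 0) →
    ∃ a : Fin (n i + 1), ∑ j, l j * eval x (pderiv ⟨i, a⟩ (F j)) ≠ 0

/-- CSB (short-medium). Proof: suppose `∑_{k ≠ i} n k + #J ≥ n i + 2`. Let `c j a` be the form in the variables of the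
groups `k ≠ i` given by RES for `∂_{i,a}F_j` (PDV: degree `0` in the group `i` and `d j k ≥ 1` in the others). By TWH for
the index type `{k // k ≠ i}` and `N = n i + 1` there are `x'` and `l ≠ 0` with `∑_j l j c_(j,a)(x') = 0` for all `a`.
Extend `x'` to `x` by the coordinates `1` in the group `i`: `Pt n x` and `∑_j l j ∂_{i,a}F_j(x) = 0`, against RNK. (The
sum over `{k // k ≠ i}` of `n k` is the sum over `Finset.univ.erase i`.) -/
def CSB_stmt : Prop :=
  ∀ (ι : Type) [Fintype ι] [DecidableEq ι] (n : ι → ℕ) (J : Type) [Fintype J] [DecidableEq J] [Nonempty J]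
    (d : J → ι → ℕ) (F : J → MvPolynomial (Vr n) ℂ), Data n d F → AllFree n d F → ∀ i : ι, (∀ j, d j i = 1) →
    Fintype.card J ≤ n i → ∑ k ∈ Finset.univ.erase i, n k + Fintype.card J ≤ n i + 1

/-- CMB (short). Proof: let `S` be the sum of the `n k` over `k ≠ i, i'`. The hypotheses say `n i' + S + r ≤ n i + 1` and
`n i + S + r ≤ n i' + 1`; adding, `2 S + 2 r ≤ 2`, so `r = 1`, `S = 0`; as all `n k ≥ 1` there is no other index. -/
def CMB_stmt : Prop :=
  ∀ (ι : Type) [Fintype ι] [DecidableEq ι] (n : ι → ℕ) (r : ℕ) (i i' : ι), (∀ k, 1 ≤ n k) → 1 ≤ r → i ≠ i' →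
    ∑ k ∈ Finset.univ.erase i, n k + r ≤ n i + 1 → ∑ k ∈ Finset.univ.erase i', n k + r ≤ n i' + 1 →
    r = 1 ∧ n i = n i' ∧ ∀ k, k = i ∨ k = i'

/-- MTX (short-medium). Proof: `A a b` = the coefficient of `x_{i,a} x_{i',b}` in `F`. A monomial `m` of `F` has degree `1`
in the groups `i` and `i'`, and there are no other groups, so it is `single ⟨i,a⟩ 1 + single ⟨i',b⟩ 1`; this gives the
formula for `F`. The derivative `∂_{i,a}F` is `∑_b A a b x_{i',b}`. For `y ≠ 0` in `ℂ^(n i' + 1)` take `x` with `y` in the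
group `i'` and `1` in the group `i`: the hypothesis says `A y ≠ 0`. So `y ↦ A y` is injective, between spaces of equal
dimension, hence invertible (`LinearMap.linearEquivOfInjective`); `B` is the matrix of the inverse. -/
def MTX_stmt : Prop :=
  ∀ (ι : Type) [Fintype ι] [DecidableEq ι] (n : ι → ℕ) (F : MvPolynomial (Vr n) ℂ) (i i' : ι), i ≠ i' →
    (∀ k, k = i ∨ k = i') → n i = n i' → MHom n (fun _ => 1) F →
    (∀ x, Pt n x → ∃ a : Fin (n i + 1), eval x (pderiv ⟨i, a⟩ F) ≠ 0) →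
    ∃ (A : Matrix (Fin (n i + 1)) (Fin (n i' + 1)) ℂ) (B : Matrix (Fin (n i' + 1)) (Fin (n i + 1)) ℂ),
      A * B = 1 ∧ B * A = 1 ∧
      F = ∑ a : Fin (n i + 1), ∑ b : Fin (n i' + 1), C (A a b) * X ⟨i, a⟩ * X ⟨i', b⟩

/-- FIN (short, architect). The theorem. -/
def FIN_stmt : Prop :=
  ∀ (k r : ℕ) (n : Fin k → ℕ) (d : Fin r → Fin k → ℕ) (F : Fin r → MvPolynomial (Vr n) ℂ), 0 < r →
    (∀ l, 1 ≤ n l) → Data n d F → SmoothCI n F → ∀ i i' : Fin k, i ≠ i' → ∑ j, d j i ≤ n i → ∑ j, d j i' ≤ n i' →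
    AllFree n d F →
    r = 1 ∧ k = 2 ∧ n i = n i' ∧
      ∃ (A : Matrix (Fin (n i + 1)) (Fin (n i' + 1)) ℂ) (B : Matrix (Fin (n i' + 1)) (Fin (n i + 1)) ℂ),
        A * B = 1 ∧ B * A = 1 ∧
        ∀ j, F j = ∑ a : Fin (n i + 1), ∑ b : Fin (n i' + 1), C (A a b) * X ⟨i, a⟩ * X ⟨i', b⟩

end Pool.Agent.CVX
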